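import Mathlib

/-!
# Weil numbers of K3 type and slope traces: definitions
-/

set_option autoImplicit false

namespace Pool.Agent.H27.K3

open IntermediateField

/-- The algebraic numbers. -/
abbrev Qb : Type := AlgebraicClosure ℚ

/-- All complex embeddings of `x` are purely imaginary. -/
def PurelyImaginary (x : Qb) : Prop := ∀ φ : Qb →+* ℂ, (φ x).re = 0

/-- `γ` is an algebraic number all of whose complex absolute values are `q ^ (w / 2)`. -/
def IsWeil (q w : ℕ) (γ : Qb) : Prop := ∀ φ : Qb →+* ℂ, ‖φ γ‖ ^ 2 = (q : ℝ) ^ w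

/-- The slope trace of the element `x` of `ℚ(γ)`: the sum of `lam γ' * x'` over all conjugates
`(γ', x')` of the pair `(γ, x)`, that is, the sum of `lam (e γ) * e x` over all embeddings `e` of
the field `ℚ(γ)`. -/
noncomputable def slopeTrace (lam : Qb → ℚ) (γ x : Qb) : Qb :=
  ∑ᶠ u ∈ {u : Qb × Qb | ∃ g : Qb →+* Qb, (g γ, g x) = u}, (lam u.1 : Qb) * u.2

/-- The slope traces of the purely imaginary elements of the fields `ℚ(β)`, `β ∈ B`. -/
def slopeTraces (lam : Qb → ℚ) (B : Set Qb) : Set Qb :=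
  {u | ∃ β ∈ B, ∃ y ∈ ℚ⟮β⟯, PurelyImaginary y ∧ slopeTrace lam β y = u}

/-- The maps `T (γ t)` are independent modulo `N` on the purely imaginary elements of the fields
`ℚ(γ t)`: if the sum of the values `T (γ t) (x t)` of finitely many purely imaginary elements `x t`
of `ℚ(γ t)` lies in `N`, then all `x t` vanish. -/
def Independent {I : Type*} (γ : I → Qb) (T : Qb → Qb → Qb) (N : Set Qb) : Prop :=
  ∀ (S : Finset I) (x : I → Qb), (∀ t ∈ S, x t ∈ ℚ⟮γ t⟯ ∧ PurelyImaginary (x t)) →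
    ∑ t ∈ S, T (γ t) (x t) ∈ N → ∀ t ∈ S, x t = 0

/-- The number `γ` of weight `w` is of K3 type: its slope is not `w / 2`, but the slopes of all its
conjugates different from `γ` and `q ^ w / γ` are `w / 2`. -/
def IsK3Type (lam : Qb → ℚ) (q w : ℕ) (γ : Qb) : Prop :=
  2 * lam γ ≠ w ∧ ∀ γ' : Qb, IsConjRoot ℚ γ γ' → γ' ≠ γ → γ' ≠ (q : Qb) ^ w / γ → 2 * lam γ' = w

end Pool.Agent.H27.K3
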