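import Pool.Graph.R_pool_sql_team_seeded_3997aac3.Q56.FR.Defs
import Pool.Agent.H27.K3.Defs

/-!
# Varieties generated by classes of given Frobenius numbers: definitions
-/

set_option autoImplicit false

open CategoryTheory AlgebraicGeometry

universe u v

namespace Pool.Agent.H27.K3

open Pool.Agent.H914 Pool.Agent.H914.VarClass Pool.Agent.H914.VarClass.Obj
  Pool.Agent.H914.WeilCohomology Pool.Agent.Q56.FE Pool.Agent.Q56.FR

variable {k : Type u} [Field k] {𝒱 : VarClass k} {ops : CycleOps 𝒱}
  {W : WeilCohomology.{u, v} ops} {q : ℕ}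

/-- The generalised eigenvectors of the Frobenius endomorphism of degree `n` for the
eigenvalue `ν`. -/
def genPart (F : FrobeniusOver W q) (V : 𝒱.Obj) (ν : W.K) (n : ℕ) : Set (W.H V) :=
  {x | x ∈ Module.End.maxGenEigenspace (M := W.H V) (W.map (F.Fr V)).toLinearMap ν ⊓ W.gr V n}

/-- The generalised Tate classes of codimension `j`. -/
def tateClasses (F : FrobeniusOver W q) (V : 𝒱.Obj) (j : ℕ) : Set (W.H V) :=
  genPart F V ((q : W.K) ^ j) (2 * j)

/-- The linear combinations of classes of cycles of the same codimension. -/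
def algClass (W : WeilCohomology.{u, v} ops) (V : 𝒱.Obj) : Set (W.H V) :=
  {x | ∃ j : ℕ, x ∈ spanCycles W V j}

/-- The strong Tate conjecture for `V` in codimension `j`: all generalised Tate classes are linear
combinations of classes of cycles. -/
def TateHolds (F : FrobeniusOver W q) (V : 𝒱.Obj) (j : ℕ) : Prop :=
  tateClasses F V j ⊆ algClass W V

/-- The polynomials in the elements of `S`. -/
def generated {V : 𝒱.Obj} (S : Set (W.H V)) : Set (W.H V) := Algebra.adjoin W.K S

/-- The Frobenius eigenvalues on the cohomology of `Z` of degree `i` are algebraic numbers of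
weight `i` (this is a theorem of Deligne). -/
def HasWeights (F : FrobeniusOver W q) (τ : Qb →+* W.K) (Z : 𝒱.Obj) : Prop :=
  ∀ (i : ℕ) (ν : W.K), ∀ x ∈ genPart F Z ν i, x ≠ 0 → ∃ β : Qb, IsWeil q i β ∧ τ β = ν

/-- The algebraic numbers which are eigenvalues of the Frobenius endomorphism on the cohomology of
`Z`. -/
def eigenvalues (F : FrobeniusOver W q) (τ : Qb →+* W.K) (Z : 𝒱.Obj) : Set Qb :=
  {β | ∃ i : ℕ, ∃ x ∈ genPart F Z (τ β) i, x ≠ 0}

/-- The cohomology ring of `Y` is generated by the classes of cycles and by generalised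
eigenvectors of the Frobenius endomorphism of degree `w t + 2 r` for eigenvalues `z q ^ r`, where
`z` is a conjugate of `γ t` and `t`, `r` are such that `Y` lies in `𝒞 t r`. -/
def IsGenerated {I : Type*} (F : FrobeniusOver W q) (τ : Qb →+* W.K) (w : I → ℕ) (γ : I → Qb)
    (𝒞 : I → ℕ → Set 𝒱.Obj) (Y : 𝒱.Obj) : Prop :=
  generated (algClass W Y ∪ {x | ∃ (t : I) (r : ℕ) (z : Qb), Y ∈ 𝒞 t r ∧ IsConjRoot ℚ (γ t) z ∧
    x ∈ genPart F Y (τ (z * (q : Qb) ^ r)) (w t + 2 * r)}) = Set.univ

/-- The generators: the algebraic classes on `V`, the pull-backs of the generalised Tate classes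
of `Z`, and the pull-backs of the generalised Tate classes of codimension `w t + r + r'` of the
products `Y × Y'` with `Y` in `𝒞 t r` and `Y'` in `𝒞 t r'`. -/
def tateGenerators {I : Type*} (F : FrobeniusOver W q) (w : I → ℕ) (𝒞 : I → ℕ → Set 𝒱.Obj)
    (Z V : 𝒱.Obj) : Set (W.H V) :=
  algClass W V ∪ {x | ∃ (f : V ⟶ Z) (j : ℕ), x ∈ W.map f '' tateClasses F Z j} ∪
    {x | ∃ (t : I) (r r' : ℕ), ∃ Y ∈ 𝒞 t r, ∃ Y' ∈ 𝒞 t r', ∃ (f : V ⟶ Y.prod Y'),
      x ∈ W.map f '' tateClasses F (Y.prod Y') (w t + r + r')}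

/-- Let `V` be the product of `Z` with arbitrarily many varieties of the classes `𝒞 t r`. There are
no new Tate classes on `V`: all generalised Tate classes on `V` are polynomials in the generators.
So if the strong Tate conjecture holds for `Z`, and for `Y × Y'` in the one codimension
`w t + r + r'` whenever `Y` is in `𝒞 t r` and `Y'` is in `𝒞 t r'`, then it holds for `V` in all
codimensions, and so does the full Tate conjecture (some cycles form a basis of the Tate classes
over the coefficient field, and rationally of the classes of all cycles). -/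
def TateFromPairs {I : Type*} (F : FrobeniusOver W q) (w : I → ℕ) (𝒞 : I → ℕ → Set 𝒱.Obj)
    (Z : 𝒱.Obj) : Prop :=
  ∀ l : List 𝒱.Obj, (∀ Y ∈ l, ∃ t r, Y ∈ 𝒞 t r) →
    (∀ j, tateClasses F (prodL Z l) j ⊆ generated (tateGenerators F w 𝒞 Z (prodL Z l))) ∧
    ((∀ j, TateHolds F Z j) →
      (∀ t r r', ∀ Y ∈ 𝒞 t r, ∀ Y' ∈ 𝒞 t r', TateHolds F (Y.prod Y') (w t + r + r')) →
        ∀ j, TateHolds F (prodL Z l) j ∧ FullTate F (prodL Z l) j)

end Pool.Agent.H27.K3
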