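import Pool.Agent.H27.K3.Span

/-!
# The Tate conjecture for the products
-/

set_option autoImplicit false
set_option linter.unusedSectionVars false

open CategoryTheory AlgebraicGeometry

universe u v

namespace Pool.Agent.H27.K3

open Pool.Agent.H914 Pool.Agent.H447 Pool.Agent.H914.VarClass Pool.Agent.H914.VarClass.Obj
  Pool.Agent.H914.WeilCohomology Pool.Agent.H281R3.HT Pool.Agent.W534
  Pool.Agent.W458.RK Pool.Agent.W458.MF Pool.Agent.W536.RR Pool.Agent.Y133.Half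
  Pool.Agent.Q56.FD Pool.Agent.Q56.FE Pool.Agent.Q56.FR

open Polynomial (aeval)

variable {k : Type u} [Field k] {𝒱 : VarClass k} {ops : CycleOps 𝒱}

variable {W : WeilCohomology.{u, v} ops} {p : ℕ} [Fact p.Prime] {a : ℕ} {I : Type*}
  {F : FrobeniusOver W (p ^ a)} {w : I → ℕ} {γ : I → Qb} {𝒞 : I → ℕ → Set 𝒱.Obj}
  {τ : Qb →+* W.K} {Z V V' Y A B : 𝒱.Obj} {lam : Qb → ℚ} {ι : Qb →+* PadicAlgCl p}

lemma SlopeIndependent.anti {N N' : Set Qb} (h : N' ⊆ N) (hN : SlopeIndependent lam γ N) :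
    SlopeIndependent lam γ N' := fun S x hx hsum => hN S x hx (h hsum)

lemma ev_norm_sq (hw : ∀ t, IsWeil (p ^ a) (w t) (γ t)) (L : List (CL F w γ 𝒞 τ V))
    (φ : Qb →+* ℂ) : ‖φ (ev L)‖ ^ 2 = ((p ^ a : ℕ) : ℝ) ^ wt L := by
  induction L with
  | nil => rw [ev_nil, map_one, norm_one, one_pow]; rfl
  | cons l L ih => rw [ev_cons, wt_cons, map_mul, norm_mul, mul_pow, ih, (hw l.t).conj l.hz φ,
      pow_add]

variable {𝒜 : ∀ V : 𝒱.Obj, Submodule W.K (W.H V)}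

/-- The generalised Tate classes of the products are generated. -/
theorem gen_prod [IsAlgClosed W.K] (h𝒜 : Good 𝒜) (ha : 0 < a)
    (hlam : ∀ z, (lam z : ℝ) = sl (p ^ a) ι z) (hw : ∀ t, IsWeil (p ^ a) (w t) (γ t))
    (hne : ∀ t, γ t ^ 2 ≠ ((p ^ a : ℕ) : Qb) ^ w t) (hZ : HasWeights F τ Z)
    (hM : SlopeIndependent lam γ (sTraces lam (eigenvalues F τ Z)))
    (h𝒞 : ∀ t r, ∀ Y ∈ 𝒞 t r, IsGenerated F τ w γ 𝒞 Y)
    (hpair : ∀ t r r', ∀ Y ∈ 𝒞 t r, ∀ Y' ∈ 𝒞 t r',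
      genEig F (Y.prod Y') (w t + r + r') ≤ 𝒜 (Y.prod Y'))
    (hT : ∀ j, genEig F Z j ≤ 𝒜 Z) (l : List 𝒱.Obj) (hl : ∀ Y ∈ l, ∃ t r, Y ∈ 𝒞 t r) (j : ℕ) :
    genEig F (prodL Z l) j ≤ 𝒜 (prodL Z l) := by
  have hq0 : ((p ^ a : ℕ) : Qb) ≠ 0 := qb_ne p a
  intro x hx
  have hspan := RW_prodL hZ h𝒞 l hl x
  have hword : ∀ (n : ℕ) (c : W.H (prodL Z l)) (f : prodL Z l ⟶ Z) (β : Qb) (z : W.H Z)
      (L : List (CL F w γ 𝒞 τ (prodL Z l))), c ∈ spanCycles W (prodL Z l) n →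
      z ∈ (fr F Z).maxGenEigenspace (τ β) → c * (W.map f z * word L) ∈
        (fr F (prodL Z l)).maxGenEigenspace (τ (((p ^ a : ℕ) : Qb) ^ n *
          (β * (ev L * ((p ^ a : ℕ) : Qb) ^ tw L)))) := by
    intro n c f β z L hc hz
    have h1 : W.map f z * word L ∈ (fr F (prodL Z l)).maxGenEigenspace
        (τ β * τ (ev L * ((p ^ a : ℕ) : Qb) ^ tw L)) :=
      gen_bilin (β := LinearMap.mul W.K (W.H _)) (fun x y =>
        (map_mul (W.map (F.Fr _)) x y).symm) (gen_pull f hz) (word_gen L)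
    have h2 : c * (W.map f z * word L) ∈ (fr F (prodL Z l)).maxGenEigenspace
        (((p ^ a : ℕ) : W.K) ^ n * (τ β * τ (ev L * ((p ^ a : ℕ) : Qb) ^ tw L))) :=
      gen_bilin (β := LinearMap.mul W.K (W.H _)) (fun x y =>
        (map_mul (W.map (F.Fr _)) x y).symm) (cyc_eig hc) h1
    rw [map_mul τ (((p ^ a : ℕ) : Qb) ^ n), map_mul τ β, map_pow, map_natCast]
    exact h2
  have hgen : ∀ v ∈ RW F w γ 𝒞 τ Z (prodL Z l),
      ∃ μ, v ∈ (fr F (prodL Z l)).maxGenEigenspace μ := by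
    rintro v ⟨n, c, f, i, β, z, L, hc, hβ, hz, hzg, rfl⟩
    exact ⟨_, hword n c f β z L hc hzg⟩
  have h3 := mem_span_gen (T := fr F (prodL Z l)) hgen hspan hx.1
  refine (Submodule.span_le (p := 𝒜 (prodL Z l))).2 ?_ h3
  rintro v ⟨⟨n, c, f, i, β, z, L, hc, hβ, hz, hzg, rfl⟩, hvμ⟩
  by_cases hv0 : c * (W.map f z * word L) = 0
  · rw [hv0]
    exact Submodule.zero_mem _
  have hz0 : z ≠ 0 := by
    rintro rfl
    apply hv0
    rw [map_zero, zero_mul, mul_zero]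
  have hβM : β ∈ eigenvalues F τ Z := ⟨i, z, ⟨hzg, hz⟩, hz0⟩
  have h4 := eq_of_mem_gen (hword n c f β z L hc hzg) hvμ hv0
  have h5 : ((p ^ a : ℕ) : Qb) ^ n * (β * (ev L * ((p ^ a : ℕ) : Qb) ^ tw L)) =
      ((p ^ a : ℕ) : Qb) ^ j := by
    apply τ.injective
    rw [h4, map_pow, map_natCast]
  -- the weights
  have h6 : i + wt L + 2 * tw L + 2 * n = 2 * j := by
    obtain ⟨φ⟩ := exists_cpx
    have h6 := congrArg (fun z => ‖φ z‖ ^ 2) h5
    have h7 : ‖φ ((p ^ a : ℕ) : Qb)‖ = ((p ^ a : ℕ) : ℝ) := by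
      rw [map_natCast, Complex.norm_natCast]
    simp only [map_mul, map_pow φ, norm_mul, norm_pow, mul_pow, h7] at h6
    rw [hβ φ, ev_norm_sq hw] at h6
    have h8 : ((p ^ a : ℕ) : ℝ) ^ (i + wt L + 2 * tw L + 2 * n) = ((p ^ a : ℕ) : ℝ) ^ (2 * j) := by
      calc ((p ^ a : ℕ) : ℝ) ^ (i + wt L + 2 * tw L + 2 * n) = _ := by
            rw [pow_add, pow_add, pow_add]
        _ = (((p ^ a : ℕ) : ℝ) ^ n) ^ 2 * (((p ^ a : ℕ) : ℝ) ^ i * (((p ^ a : ℕ) : ℝ) ^ wt L *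
            (((p ^ a : ℕ) : ℝ) ^ tw L) ^ 2)) := by ring
        _ = _ := h6
        _ = _ := by ring
    exact (pow_right_injective₀ (q_pos (p := p) (e := a)) (q_gt ha).ne') h8
  refine h𝒜.mul _ _ (h𝒜.alg _ (cyc_alg hc)) _ ?_
  have hM' : SlopeIndependent lam γ (sTraces lam {β}) := by
    refine SlopeIndependent.anti ?_ hM
    rintro u ⟨β', rfl, y, hy, rfl⟩
    exact ⟨β', hβM, y, hy, rfl⟩
  refine word_alg h𝒜 ha hlam hw hne hpair hT f hβ hM' hz hzg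
    L.length L le_rfl ⟨j - n, ?_, by omega⟩
  apply mul_right_cancel₀ (pow_ne_zero n hq0)
  rw [← pow_add, Nat.sub_add_cancel (by omega), ← h5]
  ring

lemma good_algSpan : Good (W := W) (fun V => algSpan W V) where
  alg _ := le_rfl
  mul _ _ hx _ hy := algSpan_mul hx hy
  map f _ hx := algSpan_map f hx
  comm _ _ hx y := algSpan_comm hx y

lemma holds_iff {V : 𝒱.Obj} {j : ℕ} : TateHolds F V j ↔ genEig F V j ≤ algSpan W V := by
  constructor
  · intro h x hx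
    obtain ⟨i, hi⟩ := h (show x ∈ tateClasses F V j from hx)
    exact cyc_alg hi
  · intro h x hx
    exact ⟨j, spanCycles_of_algSpan (h (show x ∈ genEig F V j from hx)) hx.2⟩

lemma gens_map {V V' : 𝒱.Obj} (f : V ⟶ V') {x : W.H V'}
    (hx : x ∈ tateGenerators F w 𝒞 Z V') : W.map f x ∈ tateGenerators F w 𝒞 Z V := by
  rcases hx with (⟨j, hc⟩ | ⟨g, j, y, hy, rfl⟩) | ⟨t, r, r', Y, hY, Y', hY', g, y, hy, rfl⟩
  · exact Or.inl (Or.inl ⟨j, cyc_map f hc⟩)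
  · exact Or.inl (Or.inr ⟨f ≫ g, j, y, hy, W.map_comp f g y⟩)
  · exact Or.inr ⟨t, r, r', Y, hY, Y', hY', f ≫ g, y, hy, W.map_comp f g y⟩

lemma gens_even {V : 𝒱.Obj} {x : W.H V} (hx : x ∈ tateGenerators F w 𝒞 Z V) :
    ∃ n : ℕ, x ∈ W.gr V (2 * n) := by
  rcases hx with (⟨j, hc⟩ | ⟨g, j, y, hy, rfl⟩) | ⟨t, r, r', Y, hY, Y', hY', g, y, hy, rfl⟩
  · exact ⟨j, cyc_deg hc⟩
  · exact ⟨j, W.map_mem g hy.2⟩
  · exact ⟨w t + r + r', W.map_mem g hy.2⟩

lemma good_adjoin : Good (W := W) (fun V => Subalgebra.toSubmodule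
    (Algebra.adjoin W.K (tateGenerators F w 𝒞 Z V))) where
  alg V := by
    refine Submodule.span_le.2 ?_
    intro x hx
    obtain ⟨j, c, hc, rfl⟩ := Set.mem_iUnion.1 hx
    exact Algebra.subset_adjoin (Or.inl (Or.inl ⟨j,
      spanCycles_of_algSpan (cl_mem_algSpan hc) (W.cl_mem hc)⟩))
  mul V x hx y hy := Subalgebra.mul_mem _ hx hy
  map {V V'} f x hx := by
    change x ∈ Algebra.adjoin W.K _ at hx
    change W.map f x ∈ Algebra.adjoin W.K _
    induction hx using Algebra.adjoin_induction with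
    | mem x hx => exact Algebra.subset_adjoin (gens_map f hx)
    | algebraMap r => rw [AlgHom.commutes]; exact Subalgebra.algebraMap_mem _ r
    | add x y _ _ hx hy => rw [map_add]; exact Subalgebra.add_mem _ hx hy
    | mul x y _ _ hx hy => rw [map_mul]; exact Subalgebra.mul_mem _ hx hy
  comm V x hx y := by
    change x ∈ Algebra.adjoin W.K _ at hx
    induction hx using Algebra.adjoin_induction with
    | mem x hx =>
      obtain ⟨n, hn⟩ := gens_even hx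
      exact W.even_comm hn y
    | algebraMap r => exact Algebra.commutes r y
    | add x z _ _ hx hz => rw [add_mul, mul_add, hx, hz]
    | mul x z _ _ hx hz => rw [mul_assoc, hz, ← mul_assoc, hx, mul_assoc]

lemma holds_iff_strong {V : 𝒱.Obj} {j : ℕ} : TateHolds F V j ↔ StrongTate F V j := by
  constructor
  · intro h x hx
    exact spanCycles_of_algSpan (holds_iff.1 h hx) hx.2
  · intro h x hx
    exact ⟨j, h hx⟩

/-- **The main theorem.** -/
theorem tateFromPairs [IsAlgClosed W.K] (ha : 0 < a)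
    (hlam : ∀ z, (lam z : ℝ) = sl (p ^ a) ι z) (hw : ∀ t, IsWeil (p ^ a) (w t) (γ t))
    (hne : ∀ t, γ t ^ 2 ≠ ((p ^ a : ℕ) : Qb) ^ w t) (hZ : HasWeights F τ Z)
    (hM : SlopeIndependent lam γ (sTraces lam (eigenvalues F τ Z)))
    (h𝒞 : ∀ t r, ∀ Y ∈ 𝒞 t r, IsGenerated F τ w γ 𝒞 Y) : TateFromPairs F w 𝒞 Z := by
  intro l hl
  refine ⟨fun j => gen_prod (F := F) (Z := Z) good_adjoin ha hlam hw hne hZ hM h𝒞 ?_ ?_ l hl j,
    fun hT hpair => ?_⟩
  · intro t r r' Y hY Y' hY' x hx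
    exact Algebra.subset_adjoin (Or.inr ⟨t, r, r', Y, hY, Y', hY', 𝟙 _, x, hx, W.map_id _ x⟩)
  · intro j x hx
    exact Algebra.subset_adjoin (Or.inl (Or.inr ⟨𝟙 _, j, x, hx, W.map_id _ x⟩))
  · have h : ∀ j, TateHolds F (prodL Z l) j := fun j => holds_iff.2
      (gen_prod (F := F) (Z := Z) good_algSpan ha hlam hw hne hZ hM h𝒞
        (fun t r r' Y hY Y' hY' => holds_iff.1 (hpair t r r' Y hY Y' hY'))
        (fun j => holds_iff.1 (hT j)) l hl j)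
    exact fun j => ⟨h j, full_of_strong ha (fun j => holds_iff_strong.1 (h j)) j⟩

end Pool.Agent.H27.K3
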