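import Pool.Graph.R_pool_sql_team_seeded_3997aac3.Q56.FR.Class
import Pool.Agent.H27.K3.Defs

/-!
# Relations between the Frobenius numbers and slope traces
-/

set_option autoImplicit false

namespace Pool.Agent.H27.K3

open Pool.Agent.Q56.FD IntermediateField

/-- The slope trace, with the embeddings of the field `ℚ(γ)`. -/
noncomputable def sTrace (lam : Qb → ℚ) (γ : Qb) (x : ℚ⟮γ⟯) : Qb :=
  ∑ᶠ e : ℚ⟮γ⟯ →ₐ[ℚ] Qb, lam (e (AdjoinSimple.gen ℚ γ)) • e x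

/-- The slope traces of the purely imaginary elements of the fields `ℚ(β)`, `β ∈ B`. -/
def sTraces (lam : Qb → ℚ) (B : Set Qb) : Set Qb :=
  {u | ∃ β ∈ B, ∃ y : ℚ⟮β⟯, PurelyImaginary y ∧ sTrace lam β y = u}

/-- The slope traces are independent modulo `N`. -/
def SlopeIndependent {I : Type*} (lam : Qb → ℚ) (γ : I → Qb) (N : Set Qb) : Prop :=
  ∀ (S : Finset I) (x : ∀ t, ℚ⟮γ t⟯), (∀ t ∈ S, PurelyImaginary (x t)) →
    ∑ t ∈ S, sTrace lam (γ t) (x t) ∈ N → ∀ t ∈ S, x t = 0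

/-- The purely imaginary elements of the fields `ℚ(γ t)` are independent modulo `N`. -/
def ImaginaryIndependent {I : Type*} (γ : I → Qb) (N : Set Qb) : Prop :=
  ∀ (S : Finset I) (x : ∀ t, ℚ⟮γ t⟯), (∀ t ∈ S, PurelyImaginary (x t)) →
    ∑ t ∈ S, (x t : Qb) ∈ N → ∀ t ∈ S, x t = 0

/-! ### complex conjugation -/

lemma exists_conj (φ : Qb →+* ℂ) :
    ∃ c : Qb ≃ₐ[ℚ] Qb, ∀ z, φ (c z) = (starRingEnd ℂ) (φ z) := by
  let _ : Algebra Qb ℂ := φ.toAlgebra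
  have _ : IsScalarTower ℚ Qb ℂ := IsScalarTower.of_algebraMap_eq fun x => by
    rw [eq_ratCast, eq_ratCast, map_ratCast]
  let σ : ℂ ≃ₐ[ℚ] ℂ := Complex.conjAe.restrictScalars ℚ
  exact ⟨σ.restrictNormal Qb, fun z => AlgEquiv.restrictNormal_commutes σ Qb z⟩

lemma exists_cpx : Nonempty (Qb →+* ℂ) := ⟨((IsAlgClosed.lift : Qb →ₐ[ℚ] ℂ) : Qb →+* ℂ)⟩

section Weil

variable {q w : ℕ} {γ z : Qb}

lemma IsWeil.map (h : IsWeil q w γ) (g : Qb →+* Qb) : IsWeil q w (g γ) :=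
  fun φ => h (φ.comp g)

lemma IsWeil.conj (h : IsWeil q w γ) (hz : IsConjRoot ℚ γ z) : IsWeil q w z := by
  obtain ⟨σ, rfl⟩ := isConjRoot_iff_exists_algEquiv.1 hz
  intro φ
  have h1 := h.map (σ.symm : Qb →+* Qb) φ
  simpa using h1

lemma IsWeil.ne_zero (hq : 0 < q) (h : IsWeil q w γ) : γ ≠ 0 := by
  obtain ⟨φ⟩ := exists_cpx
  rintro rfl
  have h1 := h φ
  rw [map_zero, norm_zero, zero_pow two_ne_zero] at h1
  have h2 : (0 : ℝ) < (q : ℝ) ^ w := pow_pos (by exact_mod_cast hq) w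
  exact h2.ne h1

lemma IsWeil.conj_mul (h : IsWeil q w γ) {φ : Qb →+* ℂ} {c : Qb ≃ₐ[ℚ] Qb}
    (hc : ∀ z, φ (c z) = (starRingEnd ℂ) (φ z)) : c γ * γ = (q : Qb) ^ w := by
  apply φ.injective
  rw [map_mul, hc, mul_comm, Complex.mul_conj, Complex.normSq_eq_norm_sq, h φ, map_pow,
    map_natCast]
  push_cast
  rfl

lemma IsWeil.conj_eq (hq : 0 < q) (h : IsWeil q w γ) {φ : Qb →+* ℂ} {c : Qb ≃ₐ[ℚ] Qb}
    (hc : ∀ z, φ (c z) = (starRingEnd ℂ) (φ z)) : c γ = (q : Qb) ^ w / γ := by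
  rw [eq_div_iff (h.ne_zero hq), h.conj_mul hc]

lemma IsWeil.dual (hq : 0 < q) (h : IsWeil q w γ) : IsConjRoot ℚ γ ((q : Qb) ^ w / γ) := by
  obtain ⟨φ⟩ := exists_cpx
  obtain ⟨c, hc⟩ := exists_conj φ
  rw [← h.conj_eq hq hc]
  exact (isConjRoot_of_algEquiv γ c)

end Weil

/-! ### slopes -/

section Slopes

variable {p : ℕ} [Fact p.Prime] {a : ℕ} {ι : Qb →+* PadicAlgCl p} {lam : Qb → ℚ}

lemma lam_mul (hlam : ∀ z, (lam z : ℝ) = sl (p ^ a) ι z) {x y : Qb} (hx : x ≠ 0) (hy : y ≠ 0) :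
    lam (x * y) = lam x + lam y := by
  have h : ((lam (x * y) : ℚ) : ℝ) = ((lam x + lam y : ℚ) : ℝ) := by
    push_cast
    rw [hlam, hlam, hlam, sl, sl, sl, map_mul, norm_mul,
      Real.logb_mul (norm_ne_zero_iff.2 ((map_ne_zero ι).2 hx))
        (norm_ne_zero_iff.2 ((map_ne_zero ι).2 hy))]
    ring
  exact_mod_cast h

lemma lam_q (ha : 0 < a) (hlam : ∀ z, (lam z : ℝ) = sl (p ^ a) ι z) :
    lam ((p ^ a : ℕ) : Qb) = 1 := by
  have h : ((lam ((p ^ a : ℕ) : Qb) : ℚ) : ℝ) = ((1 : ℚ) : ℝ) := by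
    rw [hlam, sl, norm_q, Real.logb_inv, Real.logb_self_eq_one (q_gt ha)]
    simp
  exact_mod_cast h

lemma lam_one (hlam : ∀ z, (lam z : ℝ) = sl (p ^ a) ι z) : lam 1 = 0 := by
  have h := lam_mul hlam (one_ne_zero (α := Qb)) one_ne_zero
  rw [one_mul] at h
  linarith

lemma lam_pow (hlam : ∀ z, (lam z : ℝ) = sl (p ^ a) ι z) {x : Qb} (hx : x ≠ 0) (n : ℕ) :
    lam (x ^ n) = n * lam x := by
  induction n with
  | zero => rw [pow_zero, lam_one hlam]; simp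
  | succ n ih => rw [pow_succ, lam_mul hlam (pow_ne_zero n hx) hx, ih]; push_cast; ring

lemma qb_ne (p a : ℕ) [Fact p.Prime] : ((p ^ a : ℕ) : Qb) ≠ 0 := by
  exact_mod_cast (pow_pos (Fact.out : p.Prime).pos a).ne'

lemma lam_dual (ha : 0 < a) (hlam : ∀ z, (lam z : ℝ) = sl (p ^ a) ι z) {x : Qb} (hx : x ≠ 0)
    (w : ℕ) : lam (((p ^ a : ℕ) : Qb) ^ w / x) = w - lam x := by
  have h := lam_mul hlam (div_ne_zero (pow_ne_zero w (qb_ne p a)) hx) hx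
  rw [div_mul_cancel₀ _ hx, lam_pow hlam (qb_ne p a), lam_q ha hlam] at h
  linarith

lemma lam_prod (hlam : ∀ z, (lam z : ℝ) = sl (p ^ a) ι z) {L : List Qb} (hL : ∀ x ∈ L, x ≠ 0) :
    lam L.prod = (L.map lam).sum := by
  induction L with
  | nil => simp [lam_one hlam]
  | cons x L ih =>
    rw [List.prod_cons, List.map_cons, List.sum_cons, lam_mul hlam (hL x List.mem_cons_self)
      (List.prod_ne_zero fun h => hL 0 (List.mem_cons_of_mem _ h) rfl),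
      ih fun y hy => hL y (List.mem_cons_of_mem _ hy)]

end Slopes

/-! ### embeddings -/

lemma exists_lift (E : IntermediateField ℚ Qb) (τ : E →ₐ[ℚ] Qb) :
    ∃ g : Qb ≃ₐ[ℚ] Qb, ∀ x : E, g x = τ x := by
  let f : Qb →ₐ[ℚ] Qb := τ.liftNormal Qb
  refine ⟨AlgEquiv.ofBijective f (AlgHom.normal_bijective ℚ Qb Qb f), fun x => ?_⟩
  exact τ.liftNormal_commutes Qb x

lemma exists_field (T : Finset Qb) :
    ∃ E : IntermediateField ℚ Qb, FiniteDimensional ℚ E ∧ ∀ x ∈ T, x ∈ E := by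
  refine ⟨IntermediateField.adjoin ℚ (T : Set Qb), ?_,
    fun x hx => IntermediateField.subset_adjoin ℚ _ hx⟩
  exact IntermediateField.finiteDimensional_adjoin (fun x _ => Algebra.IsIntegral.isIntegral x)

instance (γ : Qb) : FiniteDimensional ℚ ℚ⟮γ⟯ :=
  IntermediateField.adjoin.finiteDimensional (Algebra.IsIntegral.isIntegral γ)

noncomputable instance (γ : Qb) : Fintype (ℚ⟮γ⟯ →ₐ[ℚ] Qb) := Fintype.ofFinite _

lemma hom_ext {γ : Qb} {e e' : ℚ⟮γ⟯ →ₐ[ℚ] Qb}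
    (h : e (AdjoinSimple.gen ℚ γ) = e' (AdjoinSimple.gen ℚ γ)) : e = e' := by
  refine (adjoin.powerBasis (K := ℚ) (x := γ)
    (Algebra.IsIntegral.isIntegral γ)).algHom_ext ?_
  exact h

lemma slopeTrace_eq (lam : Qb → ℚ) (γ : Qb) (x : ℚ⟮γ⟯) :
    sTrace lam γ x = ∑ e : ℚ⟮γ⟯ →ₐ[ℚ] Qb, lam (e (AdjoinSimple.gen ℚ γ)) • e x :=
  finsum_eq_sum_of_fintype _

/-- the embedding with a given value -/
lemma exists_hom {γ z : Qb} (hz : IsConjRoot ℚ γ z) :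
    ∃ e : ℚ⟮γ⟯ →ₐ[ℚ] Qb, e (AdjoinSimple.gen ℚ γ) = z := by
  obtain ⟨σ, rfl⟩ := isConjRoot_iff_exists_algEquiv.1 hz.symm
  exact ⟨(σ : Qb →ₐ[ℚ] Qb).comp ℚ⟮γ⟯.val, rfl⟩

/-- the two forms of the slope trace -/
lemma slopeTrace_eq' (lam : Qb → ℚ) (γ : Qb) (x : ℚ⟮γ⟯) :
    slopeTrace lam γ x = sTrace lam γ x := by
  classical
  rw [slopeTrace_eq, slopeTrace]
  let f : (ℚ⟮γ⟯ →ₐ[ℚ] Qb) → Qb × Qb := fun e => (e (AdjoinSimple.gen ℚ γ), e x)
  have hf : Function.Injective f := fun e e' h => hom_ext (congrArg Prod.fst h)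
  have hS : {u : Qb × Qb | ∃ g : Qb →+* Qb, (g γ, g x) = u} = f '' Set.univ := by
    ext u
    constructor
    · rintro ⟨g, rfl⟩
      exact ⟨g.toRatAlgHom.comp ℚ⟮γ⟯.val, Set.mem_univ _, rfl⟩
    · rintro ⟨e, -, rfl⟩
      obtain ⟨h, hh⟩ := exists_lift ℚ⟮γ⟯ e
      refine ⟨(h : Qb →+* Qb), ?_⟩
      change (h γ, h x) = (e (AdjoinSimple.gen ℚ γ), e x)
      rw [← hh, ← hh]
      rfl
  rw [hS, finsum_mem_image hf.injOn, finsum_mem_univ, finsum_eq_sum_of_fintype]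
  refine Finset.sum_congr rfl fun e _ => ?_
  rw [Rat.smul_def]

lemma slopeTraces_eq (lam : Qb → ℚ) (B : Set Qb) : slopeTraces lam B = sTraces lam B := by
  ext u
  constructor
  · rintro ⟨β, hβ, y, hy, him, rfl⟩
    exact ⟨β, hβ, ⟨y, hy⟩, him, (slopeTrace_eq' lam β ⟨y, hy⟩).symm⟩
  · rintro ⟨β, hβ, y, him, rfl⟩
    exact ⟨β, hβ, y, y.2, him, slopeTrace_eq' lam β y⟩

lemma slopeIndependent_of {I : Type*} {lam : Qb → ℚ} {γ : I → Qb} {N : Set Qb}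
    (h : Independent γ (slopeTrace lam) N) : SlopeIndependent lam γ N := by
  intro S x hx hsum t ht
  refine Subtype.ext (h S (fun t => (x t : Qb)) (fun t ht => ⟨(x t).2, hx t ht⟩) ?_ t ht)
  simp only [slopeTrace_eq']
  exact hsum

lemma imaginaryIndependent_of {I : Type*} {γ : I → Qb} {N : Set Qb}
    (h : Independent γ (fun _ x => x) N) : ImaginaryIndependent γ N := by
  intro S x hx hsum t ht
  exact Subtype.ext (h S (fun t => (x t : Qb)) (fun t ht => ⟨(x t).2, hx t ht⟩) hsum t ht)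

/-! ### the pairing of the letters -/

section Pairing

variable {I : Type*} [DecidableEq I] {q : ℕ} {w : I → ℕ} {γ : I → Qb}

/-- the contribution of a letter -/
noncomputable def ind (q : ℕ) (w : I → ℕ) (l : I × Qb) (t : I) (ζ : Qb) (g : Qb ≃ₐ[ℚ] Qb) : ℚ :=
  open Classical in
  (if l.1 = t ∧ g l.2 = ζ then 1 else 0) - (if l.1 = t ∧ g l.2 = (q : Qb) ^ w t / ζ then 1 else 0)

lemma ind_dual (hq : 0 < q) (l : I × Qb) (t : I) (ζ : Qb) (g : Qb ≃ₐ[ℚ] Qb) :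
    ind q w l t ((q : Qb) ^ w t / ζ) g = - ind q w l t ζ g := by
  have hq0 : ((q : Qb) ^ w t) ≠ 0 := pow_ne_zero _ (by exact_mod_cast hq.ne')
  rw [ind, ind, div_div_cancel₀ hq0]
  ring

lemma ind_comp (l : I × Qb) (t : I) (ζ : Qb) (h g g' : Qb ≃ₐ[ℚ] Qb) (hg : g' l.2 = h (g l.2)) :
    ind q w l t (h ζ) g' = ind q w l t ζ g := by
  have h1 : h ((q : Qb) ^ w t / ζ) = (q : Qb) ^ w t / h ζ := by
    rw [map_div₀, map_pow, map_natCast]
  have h2 : g' l.2 = h ζ ↔ g l.2 = ζ := by rw [hg]; exact h.injective.eq_iff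
  have h3 : g' l.2 = (q : Qb) ^ w t / h ζ ↔ g l.2 = (q : Qb) ^ w t / ζ := by
    rw [hg, ← h1]; exact h.injective.eq_iff
  rw [ind, ind, h2, h3]

/-- the sum over the letters -/
noncomputable def cnt (q : ℕ) (w : I → ℕ) (L : List (I × Qb)) (t : I) (ζ : Qb)
    (g : Qb ≃ₐ[ℚ] Qb) : ℚ := (L.map fun l => ind q w l t ζ g).sum

lemma cnt_dual (hq : 0 < q) (L : List (I × Qb)) (t : I) (ζ : Qb)
    (g : Qb ≃ₐ[ℚ] Qb) : cnt q w L t ((q : Qb) ^ w t / ζ) g = - cnt q w L t ζ g := by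
  rw [cnt, cnt]
  induction L with
  | nil => simp
  | cons l L ih =>
    rw [List.map_cons, List.map_cons, List.sum_cons, List.sum_cons, ih, ind_dual hq]
    ring

lemma cnt_comp (L : List (I × Qb)) (t : I) (ζ : Qb) (h g g' : Qb ≃ₐ[ℚ] Qb)
    (hg : ∀ l ∈ L, g' l.2 = h (g l.2)) : cnt q w L t (h ζ) g' = cnt q w L t ζ g := by
  rw [cnt, cnt]
  congr 1
  exact List.map_congr_left fun l hl => ind_comp l t ζ h g g' (hg l hl)

end Pairing

end Pool.Agent.H27.K3
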