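import Pool.Agent.H27.K3.NT

/-!
# The letters of a relation come in dual pairs
-/

set_option autoImplicit false
set_option linter.unusedSectionVars false

namespace Pool.Agent.H27.K3

open Pool.Agent.Q56.FD IntermediateField

section Pairing

variable {I : Type*} [DecidableEq I] {q : ℕ} {w : I → ℕ} {γ : I → Qb} {lam : Qb → ℚ}

/-- the sum over the embeddings -/
lemma sum_ind (hq : 0 < q) {t : I} (hw : IsWeil q (w t) (γ t))
    (hdual : ∀ (x : Qb) (n : ℕ), x ≠ 0 → lam ((q : Qb) ^ n / x) = n - lam x) {l : I × Qb}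
    (hl : IsConjRoot ℚ (γ l.1) l.2) (g : Qb ≃ₐ[ℚ] Qb) :
    ∑ e : ℚ⟮γ t⟯ →ₐ[ℚ] Qb, lam (e (AdjoinSimple.gen ℚ (γ t))) *
      ind q w l t (e (AdjoinSimple.gen ℚ (γ t))) g =
        if l.1 = t then 2 * lam (g l.2) - w t else 0 := by
  classical
  by_cases ht : l.1 = t
  · subst ht
    have hz : IsConjRoot ℚ (γ l.1) (g l.2) := hl.trans (isConjRoot_of_algEquiv l.2 g)
    have hz0 : g l.2 ≠ 0 := (hw.conj hz).ne_zero hq
    have hd : IsConjRoot ℚ (γ l.1) ((q : Qb) ^ w l.1 / g l.2) :=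
      hz.trans ((hw.conj hz).dual hq)
    obtain ⟨e0, he0⟩ := exists_hom hz
    obtain ⟨e1, he1⟩ := exists_hom hd
    have hq0 : ((q : Qb) ^ w l.1) ≠ 0 := pow_ne_zero _ (by exact_mod_cast hq.ne')
    have h0 : ∀ e : ℚ⟮γ l.1⟯ →ₐ[ℚ] Qb, g l.2 = e (AdjoinSimple.gen ℚ (γ l.1)) ↔ e = e0 := by
      intro e
      constructor
      · intro h
        exact hom_ext (h.symm.trans he0.symm)
      · rintro rfl
        exact he0.symm
    have h1 : ∀ e : ℚ⟮γ l.1⟯ →ₐ[ℚ] Qb,
        g l.2 = (q : Qb) ^ w l.1 / e (AdjoinSimple.gen ℚ (γ l.1)) ↔ e = e1 := by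
      intro e
      constructor
      · intro h
        refine hom_ext ?_
        rw [he1, h, div_div_cancel₀ hq0]
      · rintro rfl
        rw [he1, div_div_cancel₀ hq0]
    have h2 : ∀ e : ℚ⟮γ l.1⟯ →ₐ[ℚ] Qb, lam (e (AdjoinSimple.gen ℚ (γ l.1))) *
        ind q w l l.1 (e (AdjoinSimple.gen ℚ (γ l.1))) g =
        (if e = e0 then lam (e (AdjoinSimple.gen ℚ (γ l.1))) else 0) -
          (if e = e1 then lam (e (AdjoinSimple.gen ℚ (γ l.1))) else 0) := by
      intro e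
      rw [ind]
      simp only [h0, h1, true_and, mul_sub, mul_ite, mul_one, mul_zero]
    rw [Finset.sum_congr rfl fun e _ => h2 e, Finset.sum_sub_distrib, Finset.sum_ite_eq',
      Finset.sum_ite_eq', if_pos (Finset.mem_univ _), if_pos (Finset.mem_univ _), he0, he1,
      hdual _ _ hz0, if_pos rfl]
    ring
  · rw [if_neg ht]
    refine Finset.sum_eq_zero fun e _ => ?_
    rw [ind, if_neg (fun h => ht h.1), if_neg (fun h => ht h.1), sub_zero, mul_zero]

/-- the sum over the embeddings and the letters -/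
lemma sum_cnt (hq : 0 < q) (hw : ∀ t, IsWeil q (w t) (γ t))
    (hdual : ∀ (x : Qb) (n : ℕ), x ≠ 0 → lam ((q : Qb) ^ n / x) = n - lam x)
    {L : List (I × Qb)} (hL : ∀ l ∈ L, IsConjRoot ℚ (γ l.1) l.2) (S : Finset I)
    (hS : ∀ l ∈ L, l.1 ∈ S) (g : Qb ≃ₐ[ℚ] Qb) :
    ∑ t ∈ S, ∑ e : ℚ⟮γ t⟯ →ₐ[ℚ] Qb, lam (e (AdjoinSimple.gen ℚ (γ t))) *
      cnt q w L t (e (AdjoinSimple.gen ℚ (γ t))) g =
        (L.map fun l => 2 * lam (g l.2) - w l.1).sum := by
  induction L with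
  | nil => simp [cnt]
  | cons l L ih =>
    have h1 := ih (fun l hl => hL l (List.mem_cons_of_mem _ hl))
      (fun l hl => hS l (List.mem_cons_of_mem _ hl))
    have h2 : ∀ (t : I) (ζ : Qb), cnt q w (l :: L) t ζ g = ind q w l t ζ g + cnt q w L t ζ g := by
      intro t ζ
      rw [cnt, List.map_cons, List.sum_cons]
      rfl
    simp only [h2, mul_add, Finset.sum_add_distrib]
    rw [h1, List.map_cons, List.sum_cons]
    congr 1
    rw [Finset.sum_congr rfl fun t _ => sum_ind hq (hw t) hdual (hL l List.mem_cons_self) g,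
      Finset.sum_ite_eq, if_pos (hS l List.mem_cons_self)]

/-- a lift of an embedding -/
noncomputable def lft (E : IntermediateField ℚ Qb) (τ : E →ₐ[ℚ] Qb) : Qb ≃ₐ[ℚ] Qb :=
  (exists_lift E τ).choose

lemma lft_eq (E : IntermediateField ℚ Qb) (τ : E →ₐ[ℚ] Qb) {x : Qb} (hx : x ∈ E) :
    lft E τ x = τ ⟨x, hx⟩ := (exists_lift E τ).choose_spec ⟨x, hx⟩

lemma lft_comp (E : IntermediateField ℚ Qb) (τ : E →ₐ[ℚ] Qb) (h : Qb ≃ₐ[ℚ] Qb) {x : Qb}
    (hx : x ∈ E) : lft E ((h : Qb →ₐ[ℚ] Qb).comp τ) x = h (lft E τ x) := by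
  rw [lft_eq E _ hx, lft_eq E _ hx]
  rfl

/-- composition with an automorphism -/
noncomputable def compEquiv (E : IntermediateField ℚ Qb) (h : Qb ≃ₐ[ℚ] Qb) :
    (E →ₐ[ℚ] Qb) ≃ (E →ₐ[ℚ] Qb) where
  toFun τ := (h : Qb →ₐ[ℚ] Qb).comp τ
  invFun τ := (h.symm : Qb →ₐ[ℚ] Qb).comp τ
  left_inv τ := by
    ext x
    exact h.symm_apply_apply _
  right_inv τ := by
    ext x
    exact h.apply_symm_apply _

variable (E : IntermediateField ℚ Qb) [FiniteDimensional ℚ E]

/-- the element attached to a relation -/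
noncomputable def XX (q : ℕ) (w : I → ℕ) (L : List (I × Qb)) (t : I) (ζ : Qb) (y : E) : Qb :=
  ∑ τ : E →ₐ[ℚ] Qb, cnt q w L t ζ (lft E τ) • τ y

lemma XX_map {L : List (I × Qb)} (hE : ∀ l ∈ L, l.2 ∈ E) (t : I) (ζ : Qb) (y : E)
    (h : Qb ≃ₐ[ℚ] Qb) : h (XX E q w L t ζ y) = XX E q w L t (h ζ) y := by
  rw [XX, XX, map_sum]
  refine Fintype.sum_equiv (compEquiv E h) _ _ fun τ => ?_
  have h1 : cnt q w L t (h ζ) (lft E (compEquiv E h τ)) = cnt q w L t ζ (lft E τ) :=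
    cnt_comp L t ζ h (lft E τ) _ fun l hl => lft_comp E τ h (hE l hl)
  rw [map_rat_smul, h1]
  rfl

lemma XX_dual (hq : 0 < q) (L : List (I × Qb)) (t : I) (ζ : Qb) (y : E) :
    XX E q w L t ((q : Qb) ^ w t / ζ) y = - XX E q w L t ζ y := by
  rw [XX, XX, ← Finset.sum_neg_distrib]
  refine Finset.sum_congr rfl fun τ _ => ?_
  rw [cnt_dual hq, neg_smul]

lemma XX_mem {L : List (I × Qb)} (hE : ∀ l ∈ L, l.2 ∈ E) (t : I) (y : E) :
    XX E q w L t (γ t) y ∈ ℚ⟮γ t⟯ := by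
  rw [← InfiniteGalois.fixedField_fixingSubgroup ℚ⟮γ t⟯, IntermediateField.mem_fixedField_iff]
  intro h hh
  rw [XX_map E hE]
  congr 1
  exact (IntermediateField.mem_fixingSubgroup_iff _ h).1 hh _
    (IntermediateField.mem_adjoin_simple_self ℚ (γ t))

lemma XX_imag (hq : 0 < q) (hw : ∀ t, IsWeil q (w t) (γ t)) {L : List (I × Qb)}
    (hE : ∀ l ∈ L, l.2 ∈ E) (t : I) (y : E) : PurelyImaginary (XX E q w L t (γ t) y) := by
  intro φ
  obtain ⟨c, hc⟩ := exists_conj φ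
  have h1 := XX_map E (q := q) (w := w) hE t (γ t) y c
  rw [(hw t).conj_eq hq hc, XX_dual E hq] at h1
  have h2 := congrArg φ h1
  rw [hc, map_neg] at h2
  have h3 := congrArg Complex.re h2
  rw [Complex.conj_re, Complex.neg_re] at h3
  linarith

lemma XX_emb {L : List (I × Qb)} (hE : ∀ l ∈ L, l.2 ∈ E) (t : I) (y : E)
    (e : ℚ⟮γ t⟯ →ₐ[ℚ] Qb) : e ⟨XX E q w L t (γ t) y, XX_mem E hE t y⟩ =
      XX E q w L t (e (AdjoinSimple.gen ℚ (γ t))) y := by
  obtain ⟨h, hh⟩ := exists_lift ℚ⟮γ t⟯ e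
  rw [← hh, ← hh]
  exact XX_map E hE t (γ t) y h

/-- the slope traces -/
lemma XX_trace {L : List (I × Qb)} (hE : ∀ l ∈ L, l.2 ∈ E) (S : Finset I) (y : E) :
    ∑ t ∈ S, sTrace lam (γ t) ⟨XX E q w L t (γ t) y, XX_mem E hE t y⟩ =
      ∑ τ : E →ₐ[ℚ] Qb, (∑ t ∈ S, ∑ e : ℚ⟮γ t⟯ →ₐ[ℚ] Qb,
        lam (e (AdjoinSimple.gen ℚ (γ t))) *
          cnt q w L t (e (AdjoinSimple.gen ℚ (γ t))) (lft E τ)) • τ y := by
  have h1 : ∀ t ∈ S, sTrace lam (γ t) ⟨XX E q w L t (γ t) y, XX_mem E hE t y⟩ =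
      ∑ τ : E →ₐ[ℚ] Qb, (∑ e : ℚ⟮γ t⟯ →ₐ[ℚ] Qb, lam (e (AdjoinSimple.gen ℚ (γ t))) *
          cnt q w L t (e (AdjoinSimple.gen ℚ (γ t))) (lft E τ)) • τ y := by
    intro t _
    rw [slopeTrace_eq]
    simp only [Finset.sum_smul]
    rw [Finset.sum_comm]
    refine Finset.sum_congr rfl fun e _ => ?_
    rw [XX_emb E hE, XX, Finset.smul_sum]
    refine Finset.sum_congr rfl fun τ _ => ?_
    rw [smul_smul]
  rw [Finset.sum_congr rfl h1, Finset.sum_comm]
  refine Finset.sum_congr rfl fun τ _ => ?_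
  rw [Finset.sum_smul]

lemma cnt_eq_zero (L : List (I × Qb)) (t : I) (ζ : Qb)
    (h0 : ∀ y : E, XX E q w L t ζ y = 0) (τ : E →ₐ[ℚ] Qb) : cnt q w L t ζ (lft E τ) = 0 := by
  have h1 := linearIndependent_toLinearMap ℚ E Qb
  rw [Fintype.linearIndependent_iff] at h1
  have h2 := h1 (fun τ => ((cnt q w L t ζ (lft E τ) : ℚ) : Qb)) (by
    apply LinearMap.ext
    intro y
    rw [LinearMap.sum_apply, LinearMap.zero_apply, ← h0 y, XX]
    refine Finset.sum_congr rfl fun τ _ => ?_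
    rw [Rat.smul_def]
    rfl) τ
  exact_mod_cast h2

/-- a letter has a dual letter if the counting function vanishes -/
lemma exists_dual {L : List (I × Qb)}
    {l : I × Qb} (hl : l ∈ L) {g : Qb ≃ₐ[ℚ] Qb} (hg : g l.2 = γ l.1)
    (h0 : cnt q w L l.1 (γ l.1) g = 0) : (l.1, (q : Qb) ^ w l.1 / l.2) ∈ L := by
  classical
  by_contra hcon
  have h1 : ∀ l' ∈ L, ¬ (l'.1 = l.1 ∧ g l'.2 = (q : Qb) ^ w l.1 / γ l.1) := by
    rintro l' hl' ⟨h2, h3⟩
    apply hcon
    have h4 : l'.2 = (q : Qb) ^ w l.1 / l.2 := by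
      apply g.injective
      rw [h3, map_div₀, map_pow, map_natCast, hg]
    rw [← h2, ← h4] at *
    rwa [h2] at *
  have h2 : ∀ l' ∈ L, 0 ≤ ind q w l' l.1 (γ l.1) g := by
    intro l' hl'
    rw [ind, if_neg (h1 l' hl'), sub_zero]
    split_ifs <;> norm_num
  have h3 : ind q w l l.1 (γ l.1) g = 1 := by
    rw [ind, if_neg (h1 l hl), sub_zero, if_pos ⟨rfl, hg⟩]
  have h4 : ind q w l l.1 (γ l.1) g ≤ cnt q w L l.1 (γ l.1) g := by
    rw [cnt]
    refine List.single_le_sum ?_ _ (List.mem_map.2 ⟨l, hl, rfl⟩)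
    intro x hx
    obtain ⟨l', hl', rfl⟩ := List.mem_map.1 hx
    exact h2 l' hl'
  rw [h3, h0] at h4
  exact absurd h4 (by norm_num)

end Pairing

section Main

variable {I : Type*} {p : ℕ} [Fact p.Prime] {a : ℕ} {ι : Qb →+* PadicAlgCl p} {lam : Qb → ℚ}
  {w : I → ℕ} {γ : I → Qb}

/-- the letters together with the additional letter `β` -/
def addLet (β : Qb) (L : List (I × Qb)) : List (Option I × Qb) :=
  (none, β) :: L.map fun l => (some l.1, l.2)

/-- **The letters of a relation come in dual pairs.** -/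
theorem pairing (ha : 0 < a) (hlam : ∀ z, (lam z : ℝ) = sl (p ^ a) ι z)
    (hw : ∀ t, IsWeil (p ^ a) (w t) (γ t)) {β : Qb} {i : ℕ} (hβ : IsWeil (p ^ a) i β)
    (hM : SlopeIndependent lam γ (sTraces lam {β})) {L : List (I × Qb)}
    (hL : ∀ l ∈ L, IsConjRoot ℚ (γ l.1) l.2) {j : ℕ}
    (hprod : β * (L.map Prod.snd).prod = ((p ^ a : ℕ) : Qb) ^ j)
    (hdeg : i + (L.map fun l => w l.1).sum = 2 * j) :
    ∀ l ∈ L, (l.1, ((p ^ a : ℕ) : Qb) ^ w l.1 / l.2) ∈ L := by
  classical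
  have hq : 0 < p ^ a := pow_pos (Fact.out : p.Prime).pos a
  -- the letters with the additional letter
  let γ' : Option I → Qb := fun o => o.elim β γ
  let w' : Option I → ℕ := fun o => o.elim i w
  have hw' : ∀ o, IsWeil (p ^ a) (w' o) (γ' o) := by
    rintro (_ | t)
    · exact hβ
    · exact hw t
  have hL' : ∀ l ∈ addLet β L, IsConjRoot ℚ (γ' l.1) l.2 := by
    intro l hl
    rcases List.mem_cons.1 hl with rfl | hl
    · exact IsConjRoot.refl
    · obtain ⟨l', hl', rfl⟩ := List.mem_map.1 hl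
      exact hL l' hl'
  obtain ⟨E, hfd, hE⟩ := exists_field ((addLet β L).map Prod.snd).toFinset
  have hLE : ∀ l ∈ addLet β L, l.2 ∈ E := fun l hl =>
    hE _ (List.mem_toFinset.2 (List.mem_map.2 ⟨l, hl, rfl⟩))
  have hdual : ∀ (x : Qb) (n : ℕ), x ≠ 0 → lam (((p ^ a : ℕ) : Qb) ^ n / x) = n - lam x :=
    fun x n hx => lam_dual ha hlam hx n
  set S : Finset I := (L.map Prod.fst).toFinset with hS
  have hLS : ∀ l ∈ L, l.1 ∈ S := fun l hl => List.mem_toFinset.2 (List.mem_map.2 ⟨l, hl, rfl⟩)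
  have hLS' : ∀ l ∈ addLet β L, l.1 ∈ Finset.insertNone S := by
    intro l hl
    rcases List.mem_cons.1 hl with rfl | hl
    · exact Finset.none_mem_insertNone
    · obtain ⟨l', hl', rfl⟩ := List.mem_map.1 hl
      exact Finset.some_mem_insertNone.2 (hLS l' hl')
  have hβ0 : β ≠ 0 := hβ.ne_zero hq
  have hz0 : ∀ l ∈ L, l.2 ≠ 0 := fun l hl => ((hw l.1).conj (hL l hl)).ne_zero hq
  -- the slopes
  have hsum : ∀ g : Qb ≃ₐ[ℚ] Qb,
      ((addLet β L).map fun l => 2 * lam (g l.2) - w' l.1).sum = 0 := by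
    intro g
    have h1 : lam (g β) + (L.map fun l => lam (g l.2)).sum = j := by
      have h2 := congrArg (fun z => lam (g z)) hprod
      simp only [map_mul, map_pow, map_natCast, map_list_prod, List.map_map] at h2
      rw [lam_mul hlam ((map_ne_zero g).2 hβ0) (List.prod_ne_zero (by
        intro h3
        obtain ⟨l, hl, h4⟩ := List.mem_map.1 h3
        exact hz0 l hl ((map_eq_zero g).1 h4))), lam_prod hlam (by
        intro x hx
        obtain ⟨l, hl, rfl⟩ := List.mem_map.1 hx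
        exact (map_ne_zero g).2 (hz0 l hl)), lam_pow hlam (qb_ne p a), lam_q ha hlam, mul_one,
        List.map_map] at h2
      exact h2
    have h2 : ∀ L' : List (I × Qb),
        ((L'.map fun l => ((some l.1 : Option I), l.2)).map fun l => 2 * lam (g l.2) - w' l.1).sum =
        2 * (L'.map fun l => lam (g l.2)).sum - (((L'.map fun l => w l.1).sum : ℕ) : ℚ) := by
      intro L'
      induction L' with
      | nil => simp
      | cons l L' ih =>
        rw [List.map_cons, List.map_cons, List.sum_cons, ih]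
        simp only [List.map_cons, List.sum_cons]
        change 2 * lam (g l.2) - (w l.1 : ℚ) + _ = _
        push_cast
        ring
    rw [addLet, List.map_cons, List.sum_cons, h2]
    change 2 * lam (g β) - (i : ℚ) + _ = 0
    have h3 : (i : ℚ) + (((L.map fun l => w l.1).sum : ℕ) : ℚ) = 2 * j := by exact_mod_cast hdeg
    linarith
  -- the slope traces
  have hzero : ∀ (y : E), ∀ t ∈ S, XX E (p ^ a) w' (addLet β L) (some t) (γ t) y = 0 := by
    intro y
    have h1 := XX_trace (γ := γ') (lam := lam) (q := p ^ a) (w := w') E hLE (Finset.insertNone S) y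
    rw [Finset.sum_congr rfl fun τ _ => congrArg (fun c : ℚ => c • (τ y : Qb))
      ((sum_cnt hq hw' hdual hL' (Finset.insertNone S) hLS' (lft E τ)).trans (hsum _))] at h1
    simp only [zero_smul, Finset.sum_const_zero] at h1
    rw [Finset.sum_insertNone] at h1
    have h2 : sTrace lam β (-⟨XX E (p ^ a) w' (addLet β L) none β y,
        XX_mem (γ := γ') E hLE none y⟩) = - sTrace lam β
          ⟨XX E (p ^ a) w' (addLet β L) none β y, XX_mem (γ := γ') E hLE none y⟩ := by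
      rw [slopeTrace_eq, slopeTrace_eq, ← Finset.sum_neg_distrib]
      refine Finset.sum_congr rfl fun e _ => ?_
      rw [map_neg, smul_neg]
    have h3 := hM S (fun t => ⟨XX E (p ^ a) w' (addLet β L) (some t) (γ t) y,
      XX_mem (γ := γ') E hLE (some t) y⟩)
      (fun t _ => XX_imag E hq hw' hLE (some t) y)
      ⟨β, rfl, -⟨XX E (p ^ a) w' (addLet β L) none β y, XX_mem (γ := γ') E hLE none y⟩, by
        intro φ
        have h4 := XX_imag E hq hw' hLE none y φ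
        change (φ (-XX E (p ^ a) w' (addLet β L) none β y)).re = 0
        rw [map_neg, Complex.neg_re, neg_eq_zero]
        exact h4, by
        rw [h2]
        exact neg_eq_of_add_eq_zero_right h1⟩
    intro t ht
    exact congrArg Subtype.val (h3 t ht)
  intro l hl
  have hl' : ((some l.1 : Option I), l.2) ∈ addLet β L :=
    List.mem_cons_of_mem _ (List.mem_map.2 ⟨l, hl, rfl⟩)
  obtain ⟨h, hh⟩ := isConjRoot_iff_exists_algEquiv.1 (hL l hl)
  let τ : E →ₐ[ℚ] Qb := (h : Qb →ₐ[ℚ] Qb).comp E.val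
  have hτ : lft E τ l.2 = γ l.1 := by
    rw [lft_eq E τ (hLE _ hl')]
    exact hh
  have h1 := exists_dual (q := p ^ a) (w := w') (γ := γ') hl' hτ
    (cnt_eq_zero E (addLet β L) (some l.1) (γ l.1) (fun y => hzero y l.1 (hLS l hl)) τ)
  rcases List.mem_cons.1 h1 with h2 | h2
  · exact absurd (congrArg Prod.fst h2) (by simp)
  · obtain ⟨l', hl', h3⟩ := List.mem_map.1 h2
    have h5 : l'.1 = l.1 := Option.some_injective _ (congrArg Prod.fst h3)
    have h6 : l'.2 = ((p ^ a : ℕ) : Qb) ^ w l.1 / l.2 := (Prod.ext_iff.1 h3).2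
    rw [← h5, ← h6] at *
    rw [← h6, ← h5]
    exact hl'

end Main

end Pool.Agent.H27.K3
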