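import Pool.Agent.H27.K3.Word

/-!
# The cohomology of the products is spanned by words
-/

set_option autoImplicit false
set_option linter.unusedSectionVars false

open CategoryTheory AlgebraicGeometry
open scoped TensorProduct

universe u v

namespace Pool.Agent.H27.K3

open Pool.Agent.H914 Pool.Agent.H447 Pool.Agent.H914.VarClass Pool.Agent.H914.VarClass.Obj
  Pool.Agent.H914.WeilCohomology Pool.Agent.H281R3.HT Pool.Agent.W534
  Pool.Agent.W458.RK Pool.Agent.W458.MF Pool.Agent.W536.RR Pool.Agent.Y133.Half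
  Pool.Agent.Q56.FD Pool.Agent.Q56.FE Pool.Agent.Q56.FR

open Polynomial (aeval)

variable {k : Type u} [Field k] {𝒱 : VarClass k} {ops : CycleOps 𝒱}

variable {W : WeilCohomology.{u, v} ops} {p : ℕ} [Fact p.Prime] {a : ℕ} {I : Type*}
  {F : FrobeniusOver W (p ^ a)} {w : I → ℕ} {γ : I → Qb} {𝒞 : I → ℕ → Set 𝒱.Obj}
  {τ : Qb →+* W.K} {Z V V' Y A B : 𝒱.Obj}

/-! ### homogeneous algebraic classes -/

lemma cyc_deg {n : ℕ} {c : W.H V} (hc : c ∈ spanCycles W V n) : c ∈ W.gr V (2 * n) := by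
  have h := spanCycles_deg hc
  rwa [show (2 * (n : ℤ)) = ((2 * n : ℕ) : ℤ) by push_cast; ring, grZ_natCast] at h

lemma cyc_alg {n : ℕ} {c : W.H V} (hc : c ∈ spanCycles W V n) : c ∈ algSpan W V :=
  Pool.Agent.W397.MF.spanCycles_le_algSpan _ hc

lemma cyc_mul {n m : ℕ} {c c' : W.H V} (hc : c ∈ spanCycles W V n)
    (hc' : c' ∈ spanCycles W V m) : c * c' ∈ spanCycles W V ((n + m : ℕ) : ℤ) := by
  refine spanCycles_of_algSpan (algSpan_mul (cyc_alg hc) (cyc_alg hc')) ?_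
  rw [show 2 * (n + m) = 2 * n + 2 * m by ring]
  exact W.mul_mem (cyc_deg hc) (cyc_deg hc')

lemma cyc_map (g : V ⟶ V') {n : ℕ} {c : W.H V'} (hc : c ∈ spanCycles W V' n) :
    W.map g c ∈ spanCycles W V n :=
  spanCycles_of_algSpan (algSpan_map g (cyc_alg hc)) (W.map_mem g (cyc_deg hc))

lemma cyc_one : (1 : W.H V) ∈ spanCycles W V ((0 : ℕ) : ℤ) :=
  spanCycles_of_algSpan one_mem_algSpan (W.one_mem V)

lemma cyc_eig {n : ℕ} {c : W.H V} (hc : c ∈ spanCycles W V n) :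
    c ∈ (fr F V).maxGenEigenspace (((p ^ a : ℕ) : W.K) ^ n) := by
  apply eig_mem_gen
  change W.map (F.Fr V) c = _
  unfold spanCycles at hc
  induction hc using Submodule.span_induction with
  | mem x hx =>
    obtain ⟨m, hm, z, hz, rfl⟩ := hx
    obtain rfl : m = n := by exact_mod_cast hm
    exact F.cyc hz
  | zero => rw [map_zero, smul_zero]
  | add x y _ _ hx hy => rw [map_add, hx, hy, smul_add]
  | smul c x _ hx => rw [map_smul, hx, smul_comm]

/-! ### words -/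

/-- The words with an algebraic coefficient. -/
def CW (F : FrobeniusOver W (p ^ a)) (w : I → ℕ) (γ : I → Qb) (𝒞 : I → ℕ → Set 𝒱.Obj)
    (τ : Qb →+* W.K) (V : 𝒱.Obj) : Set (W.H V) :=
  {y | ∃ (n : ℕ) (c : W.H V) (L : List (CL F w γ 𝒞 τ V)), c ∈ spanCycles W V n ∧
    y = c * word L}

/-- The words with one letter in `Z`. -/
def RW (F : FrobeniusOver W (p ^ a)) (w : I → ℕ) (γ : I → Qb) (𝒞 : I → ℕ → Set 𝒱.Obj)
    (τ : Qb →+* W.K) (Z : 𝒱.Obj) (V : 𝒱.Obj) : Set (W.H V) :=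
  {y | ∃ (n : ℕ) (c : W.H V) (f : V ⟶ Z) (i : ℕ) (β : Qb) (z : W.H Z)
    (L : List (CL F w γ 𝒞 τ V)), c ∈ spanCycles W V n ∧ IsWeil (p ^ a) i β ∧
      z ∈ W.gr Z i ∧ z ∈ (fr F Z).maxGenEigenspace (τ β) ∧ y = c * (W.map f z * word L)}

lemma span_mul_mul' {A : Type*} [Ring A] {K : Type*} [Field K] [Algebra K A] {S S' R : Set A}
    (h : ∀ x ∈ S, ∀ y ∈ S', x * y ∈ Submodule.span K R) {x : A}
    (hx : x ∈ Submodule.span K S) {y : A} (hy : y ∈ Submodule.span K S') :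
    x * y ∈ Submodule.span K R :=
  span_mul_mul (AlgHom.id K A) (AlgHom.id K A) h hx hy

lemma CW_mul {x y : W.H V} (hx : x ∈ CW F w γ 𝒞 τ V) (hy : y ∈ CW F w γ 𝒞 τ V) :
    x * y ∈ CW F w γ 𝒞 τ V := by
  obtain ⟨n, c, L, hc, rfl⟩ := hx
  obtain ⟨m, c', L', hc', rfl⟩ := hy
  refine ⟨n + m, c * c', L ++ L', cyc_mul hc hc', ?_⟩
  rw [word_append, mul_assoc, ← mul_assoc (word L), ← algSpan_comm (cyc_alg hc') (word L)]
  simp only [mul_assoc]

/-- The cohomology of the varieties of the class is spanned by words. -/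
lemma CW_span (h : IsGenerated F τ w γ 𝒞 Y) (y : W.H Y) :
    y ∈ Submodule.span W.K (CW F w γ 𝒞 τ Y) := by
  have hy : y ∈ Algebra.adjoin W.K (algClass W Y ∪ {x | ∃ (t : I) (r : ℕ) (z : Qb), Y ∈ 𝒞 t r ∧
      IsConjRoot ℚ (γ t) z ∧
        x ∈ genPart F Y (τ (z * ((p ^ a : ℕ) : Qb) ^ r)) (w t + 2 * r)}) := by
    have h1 : y ∈ generated (algClass W Y ∪ {x | ∃ (t : I) (r : ℕ) (z : Qb), Y ∈ 𝒞 t r ∧
      IsConjRoot ℚ (γ t) z ∧
        x ∈ genPart F Y (τ (z * ((p ^ a : ℕ) : Qb) ^ r)) (w t + 2 * r)}) := by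
      rw [show generated _ = Set.univ from h]
      exact Set.mem_univ y
    exact h1
  have h1 : (1 : W.H Y) ∈ CW F w γ 𝒞 τ Y := ⟨0, 1, [], cyc_one, by rw [word_nil, mul_one]⟩
  induction hy using Algebra.adjoin_induction with
  | mem x hx =>
    refine Submodule.subset_span ?_
    rcases hx with ⟨j, hc⟩ | ⟨t, r, z, hY, hz, hg, hx⟩
    · exact ⟨j, x, [], hc, by rw [word_nil, mul_one]⟩
    · refine ⟨0, 1, [⟨t, r, Y, hY, 𝟙 Y, z, hz, x, hx, hg⟩], cyc_one, ?_⟩
      rw [word_cons, word_nil, mul_one, one_mul]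
      exact (W.map_id Y x).symm
  | algebraMap r =>
    rw [Algebra.algebraMap_eq_smul_one]
    exact Submodule.smul_mem _ _ (Submodule.subset_span h1)
  | add x y _ _ hx hy => exact Submodule.add_mem _ hx hy
  | mul x y _ _ hx hy =>
    exact span_mul_mul' (fun x hx y hy => Submodule.subset_span (CW_mul hx hy)) hx hy

/-- homogeneous elements are sums of homogeneous generalised eigenvectors -/
lemma span_hom_gen [IsAlgClosed W.K] {i : ℕ} {z : W.H Z} (hz : z ∈ W.gr Z i) :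
    z ∈ Submodule.span W.K {x | ∃ ν : W.K, x ∈ W.gr Z i ∧ x ∈ (fr F Z).maxGenEigenspace ν} := by
  have hinv : ∀ x ∈ W.gr Z i, (fr F Z) x ∈ W.gr Z i := fun x hx => W.map_mem _ hx
  let T : Module.End W.K (W.gr Z i) := (fr F Z).restrict hinv
  have h1 := span_gen_top T ⟨z, hz⟩
  have key : ∀ y : W.gr Z i, y ∈ Submodule.span W.K {v | ∃ ν : W.K, v ∈ T.maxGenEigenspace ν} →
      (y : W.H Z) ∈ Submodule.span W.K {x | ∃ ν : W.K, x ∈ W.gr Z i ∧
        x ∈ (fr F Z).maxGenEigenspace ν} := by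
    intro y hy
    induction hy using Submodule.span_induction with
    | mem y hy =>
      obtain ⟨ν, hν⟩ := hy
      refine Submodule.subset_span ⟨ν, y.2, ?_⟩
      have h2 := gen_map (θ := (W.gr Z i).subtype) (T := T) (T' := fr F Z) (c := 1)
        (fun y => by
          rw [one_smul]
          rfl) hν
      rwa [one_mul] at h2
    | zero => exact Submodule.zero_mem _
    | add x y _ _ hx hy => exact Submodule.add_mem _ hx hy
    | smul c x _ hx => exact Submodule.smul_mem _ _ hx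
  exact key _ h1

/-- the case of `Z` itself -/
lemma RW_self [IsAlgClosed W.K] (hZ : HasWeights F τ Z) (y : W.H Z) :
    y ∈ Submodule.span W.K (RW F w γ 𝒞 τ Z Z) := by
  refine gr_induction (W.isInternal Z) (p := fun z => z ∈ Submodule.span W.K
    (RW F w γ 𝒞 τ Z Z)) ?_ (fun a b ha hb => Submodule.add_mem _ ha hb) y
  intro i x hx
  refine Submodule.span_le.2 ?_ (span_hom_gen (F := F) hx)
  rintro x ⟨ν, hx, hg⟩
  by_cases hx0 : x = 0
  · rw [hx0]
    exact Submodule.zero_mem _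
  obtain ⟨β, hβ, rfl⟩ := hZ i ν x ⟨hg, hx⟩ hx0
  refine Submodule.subset_span ⟨0, 1, 𝟙 Z, i, β, x, [], cyc_one, hβ, hx, hg, ?_⟩
  rw [word_nil, mul_one, W.map_id, one_mul]

/-- multiplication with a factor -/
lemma RW_mul (hB : ∀ y : W.H B, y ∈ Submodule.span W.K (CW F w γ 𝒞 τ B)) {x : W.H A}
    (hx : x ∈ Submodule.span W.K (RW F w γ 𝒞 τ Z A)) (y : W.H B) :
    W.map (fst A B) x * W.map (snd A B) y ∈
      Submodule.span W.K (RW F w γ 𝒞 τ Z (A.prod B)) := by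
  refine span_mul_mul (W.map (fst A B)) (W.map (snd A B)) ?_ hx (hB y)
  rintro _ ⟨n, c, f, i, β, z, L, hc, hβ, hz, hzg, rfl⟩ _ ⟨m, c', L', hc', rfl⟩
  refine Submodule.subset_span ⟨n + m, W.map (fst A B) c * W.map (snd A B) c', fst A B ≫ f, i, β,
    z, L.map (CL.pull (fst A B)) ++ L'.map (CL.pull (snd A B)),
    cyc_mul (cyc_map _ hc) (cyc_map _ hc'), hβ, hz, hzg, ?_⟩
  rw [word_append, word_pull, word_pull, W.map_comp, map_mul, map_mul, map_mul]
  have h1 := algSpan_comm (cyc_alg (cyc_map (snd A B) hc'))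
    (W.map (fst A B) (W.map f z) * W.map (fst A B) (word L))
  simp only [mul_assoc] at h1 ⊢
  congr 1
  rw [← mul_assoc (W.map (fst A B) (W.map f z)), ← mul_assoc (W.map (fst A B) (W.map f z) * _),
    mul_assoc (W.map (fst A B) (W.map f z)), ← h1]
  simp only [mul_assoc]

/-- The cohomology of the products is spanned by words. -/
theorem RW_prodL [IsAlgClosed W.K] (hZ : HasWeights F τ Z)
    (h𝒞 : ∀ t r, ∀ Y ∈ 𝒞 t r, IsGenerated F τ w γ 𝒞 Y) : ∀ l : List 𝒱.Obj,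
      (∀ Y ∈ l, ∃ t r, Y ∈ 𝒞 t r) → ∀ y : W.H (prodL Z l),
        y ∈ Submodule.span W.K (RW F w γ 𝒞 τ Z (prodL Z l)) := by
  intro l
  induction l with
  | nil => intro _ y; exact RW_self hZ y
  | cons Y l ih =>
    intro hl y
    refine kunneth_span (A := prodL Z l) (B := Y) (fun x y => ?_) y
    obtain ⟨t, r, hY⟩ := hl Y List.mem_cons_self
    exact RW_mul (CW_span (h𝒞 t r Y hY)) (ih (fun Y' hY' => hl Y' (List.mem_cons_of_mem Y hY')) x) y

end Pool.Agent.H27.K3
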