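import Pool.Agent.H27.K3.Pair

/-!
# Numbers of K3 type
-/

set_option autoImplicit false
set_option linter.unusedSectionVars false

namespace Pool.Agent.H27.K3

open Pool.Agent.Q56.FD IntermediateField

variable {p : ℕ} [Fact p.Prime] {a : ℕ} {ι : Qb →+* PadicAlgCl p} {lam : Qb → ℚ}

/-- slopes are rational -/
lemma exists_lam (ha : 0 < a) (ι : Qb →+* PadicAlgCl p) :
    ∃ lam : Qb → ℚ, ∀ z, (lam z : ℝ) = sl (p ^ a) ι z := by
  suffices h : ∀ z : Qb, ∃ r : ℚ, (r : ℝ) = sl (p ^ a) ι z by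
    choose lam hlam using h
    exact ⟨lam, hlam⟩
  intro z
  set α := ι z with hα
  rw [sl, ← hα]
  by_cases h0 : α = 0
  · exact ⟨0, by rw [h0, norm_zero, Real.logb_zero]; simp⟩
  have hp1 : (1 : ℝ) < (p : ℝ) := by exact_mod_cast (Fact.out : p.Prime).one_lt
  have hlog : Real.log (p : ℝ) ≠ 0 := (Real.log_pos hp1).ne'
  have h1 : ‖α‖ = ‖(minpoly ℚ_[p] α).coeff 0‖ ^ (1 / (minpoly ℚ_[p] α).natDegree : ℝ) :=
    spectralNorm.spectralNorm_eq_norm_coeff_zero_rpow ℚ_[p] (PadicAlgCl p) α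
  set c := (minpoly ℚ_[p] α).coeff 0 with hc
  have hc0 : c ≠ 0 := by
    intro h
    rw [h, norm_zero, Real.zero_rpow] at h1
    · exact h0 (norm_eq_zero.1 h1)
    · have := minpoly.natDegree_pos (Algebra.IsIntegral.isIntegral (R := ℚ_[p]) α)
      positivity
  have h2 : ‖c‖ = (p : ℝ) ^ (-c.valuation) := Padic.norm_eq_zpow_neg_valuation hc0
  refine ⟨(c.valuation : ℚ) / ((minpoly ℚ_[p] α).natDegree * a), ?_⟩
  have h3 : 0 < ‖c‖ := norm_pos_iff.2 hc0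
  rw [h1, Real.logb_rpow_eq_mul_logb_of_pos h3, h2, Real.logb, Real.log_zpow]
  push_cast
  rw [Real.log_pow]
  have hn : ((minpoly ℚ_[p] α).natDegree : ℝ) ≠ 0 := by
    have := minpoly.natDegree_pos (Algebra.IsIntegral.isIntegral (R := ℚ_[p]) α)
    positivity
  have ha' : (a : ℝ) ≠ 0 := by exact_mod_cast ha.ne'
  field_simp

lemma PurelyImaginary.map {x : Qb} (h : PurelyImaginary x) (g : Qb ≃ₐ[ℚ] Qb) :
    PurelyImaginary (g x) := fun φ => h (φ.comp (g : Qb →+* Qb))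

lemma PurelyImaginary.conj {x : Qb} (h : PurelyImaginary x) {φ : Qb →+* ℂ} {c : Qb ≃ₐ[ℚ] Qb}
    (hc : ∀ z, φ (c z) = (starRingEnd ℂ) (φ z)) : c x = -x := by
  apply φ.injective
  rw [hc, map_neg]
  apply Complex.ext
  · rw [Complex.conj_re, Complex.neg_re, h φ, neg_zero]
  · rw [Complex.conj_im, Complex.neg_im]

lemma PurelyImaginary.smul {x : Qb} (h : PurelyImaginary x) (r : ℚ) :
    PurelyImaginary (r • x) := by
  intro φ
  rw [Rat.smul_def, map_mul, map_ratCast, Complex.mul_re, h φ, mul_zero, Complex.ratCast_im,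
    zero_mul, sub_zero]

/-- composition with an automorphism -/
noncomputable def compE (γ : Qb) (h : Qb ≃ₐ[ℚ] Qb) : (ℚ⟮γ⟯ →ₐ[ℚ] Qb) ≃ (ℚ⟮γ⟯ →ₐ[ℚ] Qb) :=
  compEquiv ℚ⟮γ⟯ h

/-- the trace of a purely imaginary element -/
lemma trace_zero {γ : Qb} {x : ℚ⟮γ⟯} (hx : PurelyImaginary (x : Qb)) :
    ∑ e : ℚ⟮γ⟯ →ₐ[ℚ] Qb, e x = 0 := by
  obtain ⟨φ⟩ := exists_cpx
  obtain ⟨c, hc⟩ := exists_conj φ
  have h1 : c (∑ e : ℚ⟮γ⟯ →ₐ[ℚ] Qb, e x) = ∑ e : ℚ⟮γ⟯ →ₐ[ℚ] Qb, e x := by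
    rw [map_sum]
    exact Fintype.sum_equiv (compE γ c) _ _ fun e => rfl
  have h2 : c (∑ e : ℚ⟮γ⟯ →ₐ[ℚ] Qb, e x) = -∑ e : ℚ⟮γ⟯ →ₐ[ℚ] Qb, e x := by
    rw [map_sum, ← Finset.sum_neg_distrib]
    refine Finset.sum_congr rfl fun e _ => ?_
    obtain ⟨h, hh⟩ := exists_lift ℚ⟮γ⟯ e
    rw [← hh x]
    exact (hx.map h).conj hc
  rw [h1] at h2
  have h3 : (2 : Qb) * ∑ e : ℚ⟮γ⟯ →ₐ[ℚ] Qb, e x = 0 := by
    rw [two_mul]
    nth_rewrite 1 [h2]
    exact neg_add_cancel _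
  exact (mul_eq_zero.1 h3).resolve_left two_ne_zero

/-- the slope trace of a purely imaginary element for numbers of K3 type -/
lemma slopeTrace_k3 (ha : 0 < a) (hlam : ∀ z, (lam z : ℝ) = sl (p ^ a) ι z) {w : ℕ} {γ : Qb}
    (hw : IsWeil (p ^ a) w γ) (h3 : IsK3Type lam (p ^ a) w γ) {x : ℚ⟮γ⟯}
    (hx : PurelyImaginary (x : Qb)) : sTrace lam γ x = (2 * lam γ - w) • (x : Qb) := by
  classical
  have hq : 0 < p ^ a := pow_pos (Fact.out : p.Prime).pos a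
  have hγ0 : γ ≠ 0 := hw.ne_zero hq
  have hdual : lam (((p ^ a : ℕ) : Qb) ^ w / γ) = w - lam γ := lam_dual ha hlam hγ0 w
  obtain ⟨φ⟩ := exists_cpx
  obtain ⟨c, hc⟩ := exists_conj φ
  let e0 : ℚ⟮γ⟯ →ₐ[ℚ] Qb := ℚ⟮γ⟯.val
  let e1 : ℚ⟮γ⟯ →ₐ[ℚ] Qb := (c : Qb →ₐ[ℚ] Qb).comp ℚ⟮γ⟯.val
  have he0 : e0 (AdjoinSimple.gen ℚ γ) = γ := rfl
  have he1 : e1 (AdjoinSimple.gen ℚ γ) = ((p ^ a : ℕ) : Qb) ^ w / γ := hw.conj_eq hq hc
  have hx1 : e1 x = -x := hx.conj hc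
  have hx0 : e0 x = x := rfl
  have hne : e0 ≠ e1 := by
    intro h
    have h4 : γ = ((p ^ a : ℕ) : Qb) ^ w / γ :=
      he0.symm.trans ((DFunLike.congr_fun h (AdjoinSimple.gen ℚ γ)).trans he1)
    rw [← h4] at hdual
    apply h3.1
    linarith
  have hsum : ∀ e : ℚ⟮γ⟯ →ₐ[ℚ] Qb, lam (e (AdjoinSimple.gen ℚ γ)) • e x =
      ((w : ℚ) / 2) • e x + ((if e = e0 then (lam γ - w / 2) • (x : Qb) else 0) +
        (if e = e1 then (lam γ - w / 2) • (x : Qb) else 0)) := by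
    intro e
    by_cases h0 : e = e0
    · subst h0
      rw [if_pos rfl, if_neg hne, he0, hx0, add_zero, ← add_smul]
      congr 1
      ring
    · by_cases h1 : e = e1
      · subst h1
        rw [if_pos rfl, if_neg h0, he1, hdual, hx1, zero_add, smul_neg, smul_neg, ← neg_smul,
          ← neg_smul, ← add_smul]
        congr 1
        ring
      · rw [if_neg h0, if_neg h1, add_zero, add_zero]
        congr 1
        have h4 : IsConjRoot ℚ γ (e (AdjoinSimple.gen ℚ γ)) := by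
          obtain ⟨h, hh⟩ := exists_lift ℚ⟮γ⟯ e
          rw [← hh]
          exact isConjRoot_of_algEquiv γ h
        have h5 := h3.2 _ h4 (fun h => h0 (hom_ext (h.trans he0.symm)))
          (fun h => h1 (hom_ext (h.trans he1.symm)))
        linarith
  rw [slopeTrace_eq, Finset.sum_congr rfl fun e _ => hsum e, Finset.sum_add_distrib,
    Finset.sum_add_distrib, Finset.sum_ite_eq', Finset.sum_ite_eq', if_pos (Finset.mem_univ _),
    if_pos (Finset.mem_univ _), ← Finset.smul_sum, trace_zero hx, smul_zero, zero_add, ← add_smul]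
  congr 1
  ring

lemma k3_ne (ha : 0 < a) (hlam : ∀ z, (lam z : ℝ) = sl (p ^ a) ι z) {w : ℕ} {γ : Qb}
    (hw : IsWeil (p ^ a) w γ) (h3 : IsK3Type lam (p ^ a) w γ) :
    γ ^ 2 ≠ ((p ^ a : ℕ) : Qb) ^ w := by
  intro h
  have hγ0 : γ ≠ 0 := hw.ne_zero (pow_pos (Fact.out : p.Prime).pos a)
  have h1 := lam_pow hlam hγ0 2
  rw [h, lam_pow hlam (qb_ne p a), lam_q ha hlam] at h1
  apply h3.1
  push_cast at h1
  linarith

variable {I : Type*} {w : I → ℕ} {γ : I → Qb} {N : Set Qb} {M : IntermediateField ℚ Qb}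

/-- the criterion for numbers of K3 type -/
theorem slopeIndependent_k3 (ha : 0 < a) (hlam : ∀ z, (lam z : ℝ) = sl (p ^ a) ι z)
    (hw : ∀ t, IsWeil (p ^ a) (w t) (γ t)) (h3 : ∀ t, IsK3Type lam (p ^ a) (w t) (γ t))
    (hM : ImaginaryIndependent γ N) : SlopeIndependent lam γ N := by
  intro S x hx hsum t ht
  have h1 : ∑ t ∈ S, (2 * lam (γ t) - w t) • (x t : Qb) ∈ N := by
    rw [← Finset.sum_congr rfl fun t ht => slopeTrace_k3 ha hlam (hw t) (h3 t) (hx t ht)]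
    exact hsum
  have h2 := hM S (fun t => ⟨(2 * lam (γ t) - w t) • (x t : Qb), ℚ⟮γ t⟯.smul_mem (x t).2⟩)
    (fun t ht => (hx t ht).smul _) h1 t ht
  have h4 : (2 * lam (γ t) - w t : ℚ) ≠ 0 := sub_ne_zero.2 (h3 t).1
  have h5 : (x t : Qb) = 0 := (smul_eq_zero.1 (congrArg Subtype.val h2)).resolve_left h4
  exact Subtype.ext h5

/-- disjoint fields -/
theorem imaginaryIndependent_of_real [LinearOrder I]
    (hN : N ⊆ M) (h : ∀ t, ∀ x ∈ ℚ⟮γ t⟯, x ∈ M ⊔ ⨆ s : {s : I // s < t}, ℚ⟮γ s⟯ →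
      ∀ φ : Qb →+* ℂ, (φ x).im = 0) :
    ImaginaryIndependent γ N := by
  classical
  intro S x hx hsum
  by_contra hcon
  push Not at hcon
  obtain ⟨t0, ht0, hxt0⟩ := hcon
  let S' := S.filter fun t => x t ≠ 0
  have hS' : S'.Nonempty := ⟨t0, Finset.mem_filter.2 ⟨ht0, hxt0⟩⟩
  let t := S'.max' hS'
  have ht : t ∈ S' := S'.max'_mem hS'
  have htS : t ∈ S := (Finset.mem_filter.1 ht).1
  have hxt : x t ≠ 0 := (Finset.mem_filter.1 ht).2
  have h1 : (x t : Qb) = ∑ s ∈ S, (x s : Qb) - ∑ s ∈ S.erase t, (x s : Qb) := by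
    rw [← Finset.add_sum_erase S (fun s => (x s : Qb)) htS]
    ring
  have h2 : (x t : Qb) ∈ M ⊔ ⨆ s : {s : I // s < t}, ℚ⟮γ s⟯ := by
    rw [h1]
    refine sub_mem (le_sup_left (a := M) (hN hsum)) (sum_mem fun s hs => ?_)
    by_cases h0 : x s = 0
    · rw [h0]
      exact zero_mem _
    · have hsS : s ∈ S := Finset.mem_of_mem_erase hs
      have hst : s ≤ t := S'.le_max' s (Finset.mem_filter.2 ⟨hsS, h0⟩)
      have hlt : s < t := lt_of_le_of_ne hst (Finset.ne_of_mem_erase hs)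
      have h3 : ℚ⟮γ s⟯ ≤ M ⊔ ⨆ s : {s : I // s < t}, ℚ⟮γ s⟯ :=
        (le_iSup (fun s : {s : I // s < t} => ℚ⟮γ s⟯) ⟨s, hlt⟩).trans le_sup_right
      exact h3 (x s).2
  have h3 := h t (x t) (x t).2 h2
  obtain ⟨φ⟩ := exists_cpx
  apply hxt
  apply Subtype.ext
  apply φ.injective
  change φ (x t) = φ 0
  rw [map_zero]
  exact Complex.ext (hx t htS φ) (h3 φ)

/-- slope traces lie in the normal fields which contain the numbers -/
theorem slopeTraces_subset {B : Set Qb} [hM : Normal ℚ M] (hB : B ⊆ M) :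
    sTraces lam B ⊆ M := by
  rintro u ⟨β, hβ, y, -, rfl⟩
  rw [slopeTrace_eq]
  refine sum_mem fun e _ => ?_
  obtain ⟨g, hg⟩ := exists_lift ℚ⟮β⟯ e
  rw [← hg y]
  have h1 : (y : Qb) ∈ M := (adjoin_simple_le_iff.2 (hB hβ)) y.2
  exact M.smul_mem (IntermediateField.normal_iff_forall_map_le'.1 hM g ⟨y, h1, rfl⟩)

end Pool.Agent.H27.K3
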