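import Pool.Agent.H27.K3.GeoDefs
import Pool.Agent.H27.K3.Pair

/-!
# Words of letters
-/

set_option autoImplicit false
set_option linter.unusedSectionVars false

open CategoryTheory AlgebraicGeometry
open scoped TensorProduct

universe u v

namespace Pool.Agent.H27.K3

open Pool.Agent.H914 Pool.Agent.H447 Pool.Agent.H914.VarClass Pool.Agent.H914.VarClass.Obj
  Pool.Agent.H914.WeilCohomology Pool.Agent.H281R3.HT Pool.Agent.W534
  Pool.Agent.W458.RK Pool.Agent.W458.MF Pool.Agent.W536.RR Pool.Agent.Y133.Half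
  Pool.Agent.Q56.FD Pool.Agent.Q56.FE Pool.Agent.Q56.FR

open Polynomial (aeval)

variable {k : Type u} [Field k] {𝒱 : VarClass k} {ops : CycleOps 𝒱}

variable {W : WeilCohomology.{u, v} ops} {p : ℕ} [Fact p.Prime] {a : ℕ} {I : Type*}
  {F : FrobeniusOver W (p ^ a)} {w : I → ℕ} {γ : I → Qb} {𝒞 : I → ℕ → Set 𝒱.Obj}
  {τ : Qb →+* W.K} {Z V V' : 𝒱.Obj}

/-- a pulled back generalised eigenvector -/
structure CL (F : FrobeniusOver W (p ^ a)) (w : I → ℕ) (γ : I → Qb) (𝒞 : I → ℕ → Set 𝒱.Obj)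
    (τ : Qb →+* W.K) (V : 𝒱.Obj) where
  t : I
  r : ℕ
  Y : 𝒱.Obj
  hY : Y ∈ 𝒞 t r
  f : V ⟶ Y
  z : Qb
  hz : IsConjRoot ℚ (γ t) z
  x : W.H Y
  hx : x ∈ W.gr Y (w t + 2 * r)
  hg : x ∈ (fr F Y).maxGenEigenspace (τ (z * ((p ^ a : ℕ) : Qb) ^ r))

namespace CL

/-- the class -/
noncomputable def val (l : CL F w γ 𝒞 τ V) : W.H V := W.map l.f l.x

/-- pull-back of letters -/
noncomputable def pull (g : V' ⟶ V) (l : CL F w γ 𝒞 τ V) : CL F w γ 𝒞 τ V' :=
  ⟨l.t, l.r, l.Y, l.hY, g ≫ l.f, l.z, l.hz, l.x, l.hx, l.hg⟩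

lemma val_pull (g : V' ⟶ V) (l : CL F w γ 𝒞 τ V) : (l.pull g).val = W.map g l.val :=
  W.map_comp g l.f l.x

lemma val_mem (l : CL F w γ 𝒞 τ V) : l.val ∈ W.gr V (w l.t + 2 * l.r) := W.map_mem _ l.hx

/-- the label -/
def lab (l : CL F w γ 𝒞 τ V) : I × Qb := (l.t, l.z)

end CL

/-- the class of a list of letters -/
noncomputable def word (L : List (CL F w γ 𝒞 τ V)) : W.H V := (L.map CL.val).prod

/-- the labels -/
def labs (L : List (CL F w γ 𝒞 τ V)) : List (I × Qb) := L.map CL.lab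

/-- the product of the numbers of the letters -/
noncomputable def ev (L : List (CL F w γ 𝒞 τ V)) : Qb := ((labs L).map Prod.snd).prod

/-- the twist -/
def tw (L : List (CL F w γ 𝒞 τ V)) : ℕ := (L.map CL.r).sum

/-- the weight -/
def wt (L : List (CL F w γ 𝒞 τ V)) : ℕ := (L.map fun l => w l.t).sum

lemma word_nil : word ([] : List (CL F w γ 𝒞 τ V)) = 1 := rfl

lemma word_cons (l : CL F w γ 𝒞 τ V) (L : List (CL F w γ 𝒞 τ V)) :
    word (l :: L) = l.val * word L := by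
  rw [word, List.map_cons, List.prod_cons]
  rfl

lemma word_append (L L' : List (CL F w γ 𝒞 τ V)) : word (L ++ L') = word L * word L' := by
  rw [word, List.map_append, List.prod_append]
  rfl

lemma ev_nil : ev ([] : List (CL F w γ 𝒞 τ V)) = 1 := rfl

lemma ev_cons (l : CL F w γ 𝒞 τ V) (L : List (CL F w γ 𝒞 τ V)) : ev (l :: L) = l.z * ev L := by
  rw [ev, labs, List.map_cons, List.map_cons, List.prod_cons]
  rfl

lemma tw_cons (l : CL F w γ 𝒞 τ V) (L : List (CL F w γ 𝒞 τ V)) : tw (l :: L) = l.r + tw L := by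
  rw [tw, List.map_cons, List.sum_cons]
  rfl

lemma wt_cons (l : CL F w γ 𝒞 τ V) (L : List (CL F w γ 𝒞 τ V)) :
    wt (l :: L) = w l.t + wt L := by
  rw [wt, List.map_cons, List.sum_cons]
  rfl

lemma word_mem (L : List (CL F w γ 𝒞 τ V)) : word L ∈ W.gr V (wt L + 2 * tw L) := by
  induction L with
  | nil => exact W.one_mem V
  | cons l L ih =>
    rw [word_cons, wt_cons, tw_cons, show w l.t + wt L + 2 * (l.r + tw L) =
      (w l.t + 2 * l.r) + (wt L + 2 * tw L) by ring]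
    exact W.mul_mem l.val_mem ih

lemma word_pull (g : V' ⟶ V) (L : List (CL F w γ 𝒞 τ V)) :
    word (L.map (CL.pull g)) = W.map g (word L) := by
  induction L with
  | nil => rw [List.map_nil, word_nil, word_nil, map_one]
  | cons l L ih => rw [List.map_cons, word_cons, word_cons, map_mul, ih, CL.val_pull]

/-- permutations -/
lemma word_perm {L L' : List (CL F w γ 𝒞 τ V)} (h : L.Perm L') :
    ∃ c : W.K, word L = c • word L' := by
  induction h with
  | nil => exact ⟨1, (one_smul _ _).symm⟩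
  | cons l _ ih =>
    obtain ⟨c, hc⟩ := ih
    exact ⟨c, by rw [word_cons, word_cons, hc, mul_smul_comm]⟩
  | swap l l' L =>
    refine ⟨(-1) ^ ((w l'.t + 2 * l'.r) * (w l.t + 2 * l.r)), ?_⟩
    rw [word_cons, word_cons, word_cons, word_cons, ← mul_assoc,
      W.comm l'.val_mem l.val_mem, smul_mul_assoc, mul_assoc]
  | trans _ _ ih ih' =>
    obtain ⟨c, hc⟩ := ih
    obtain ⟨c', hc'⟩ := ih'
    exact ⟨c * c', by rw [hc, hc', smul_smul]⟩

lemma ev_perm {L L' : List (CL F w γ 𝒞 τ V)} (h : L.Perm L') : ev L = ev L' :=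
  List.Perm.prod_eq ((h.map CL.lab).map Prod.snd)

lemma tw_perm {L L' : List (CL F w γ 𝒞 τ V)} (h : L.Perm L') : tw L = tw L' :=
  List.Perm.sum_eq (h.map CL.r)

lemma wt_perm {L L' : List (CL F w γ 𝒞 τ V)} (h : L.Perm L') : wt L = wt L' :=
  List.Perm.sum_eq (h.map fun l => w l.t)

/-- the eigenvalue of a word -/
lemma word_gen (L : List (CL F w γ 𝒞 τ V)) :
    word L ∈ (fr F V).maxGenEigenspace (τ (ev L * ((p ^ a : ℕ) : Qb) ^ tw L)) := by
  induction L with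
  | nil =>
    apply eig_mem_gen
    rw [word_nil, ev_nil, tw, List.map_nil, List.sum_nil, pow_zero, one_mul, τ.map_one, one_smul]
    exact map_one (W.map (F.Fr V))
  | cons l L ih =>
    have h1 : l.val * word L ∈ (fr F V).maxGenEigenspace
        (τ (l.z * ((p ^ a : ℕ) : Qb) ^ l.r) * τ (ev L * ((p ^ a : ℕ) : Qb) ^ tw L)) :=
      gen_bilin (β := LinearMap.mul W.K (W.H V)) (fun x y =>
        (map_mul (W.map (F.Fr V)) x y).symm) (gen_pull l.f l.hg) ih
    rw [← map_mul] at h1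
    rw [word_cons, ev_cons, tw_cons, show l.z * ev L * ((p ^ a : ℕ) : Qb) ^ (l.r + tw L) =
      (l.z * ((p ^ a : ℕ) : Qb) ^ l.r) * (ev L * ((p ^ a : ℕ) : Qb) ^ tw L) by
        rw [pow_add]; ring]
    exact h1

/-- A family of spaces of classes which contains the algebraic classes, is closed under products
and pull-backs and consists of central elements. -/
structure Good (𝒜 : ∀ V : 𝒱.Obj, Submodule W.K (W.H V)) : Prop where
  alg : ∀ V, algSpan W V ≤ 𝒜 V
  mul : ∀ V, ∀ x ∈ 𝒜 V, ∀ y ∈ 𝒜 V, x * y ∈ 𝒜 V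
  map : ∀ {V V' : 𝒱.Obj} (f : V ⟶ V'), ∀ x ∈ 𝒜 V', W.map f x ∈ 𝒜 V
  comm : ∀ V, ∀ x ∈ 𝒜 V, ∀ y, x * y = y * x

variable {𝒜 : ∀ V : 𝒱.Obj, Submodule W.K (W.H V)}

/-- two dual letters -/
lemma pair_alg (h𝒜 : Good 𝒜)
    (hpair : ∀ t r r', ∀ Y ∈ 𝒞 t r, ∀ Y' ∈ 𝒞 t r',
      genEig F (Y.prod Y') (w t + r + r') ≤ 𝒜 (Y.prod Y'))
    (hw : ∀ t, IsWeil (p ^ a) (w t) (γ t))
    {l l' : CL F w γ 𝒞 τ V} (ht : l'.t = l.t) (hz : l'.z = ((p ^ a : ℕ) : Qb) ^ w l.t / l.z) :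
    l.val * l'.val ∈ 𝒜 V := by
  have hq : 0 < p ^ a := pow_pos (Fact.out : p.Prime).pos a
  let g : V ⟶ l.Y.prod l'.Y := lift l.f l'.f
  let X : W.H (l.Y.prod l'.Y) := W.map (fst l.Y l'.Y) l.x * W.map (snd l.Y l'.Y) l'.x
  have h1 : l.val * l'.val = W.map g X := by
    change W.map l.f l.x * W.map l'.f l'.x =
      W.map g (W.map (fst l.Y l'.Y) l.x * W.map (snd l.Y l'.Y) l'.x)
    rw [map_mul, ← W.map_comp, ← W.map_comp]
    congr 1
    · exact congrArg (fun h => W.map h l.x) (lift_fst l.f l'.f).symm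
    · exact congrArg (fun h => W.map h l'.x) (lift_snd l.f l'.f).symm
  rw [h1]
  refine h𝒜.map g _ ?_
  have hz0 : l.z ≠ 0 := ((hw l.t).conj l.hz).ne_zero hq
  have h2 : X ∈ (fr F (l.Y.prod l'.Y)).maxGenEigenspace
      (((p ^ a : ℕ) : W.K) ^ (w l.t + l.r + l'.r)) := by
    have h3 : X ∈ (fr F (l.Y.prod l'.Y)).maxGenEigenspace
        (τ (l.z * ((p ^ a : ℕ) : Qb) ^ l.r) * τ (l'.z * ((p ^ a : ℕ) : Qb) ^ l'.r)) :=
      gen_bilin (β := LinearMap.mul W.K (W.H _)) (fun x y =>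
        (map_mul (W.map (F.Fr _)) x y).symm) (gen_pull (fst l.Y l'.Y) l.hg)
        (gen_pull (snd l.Y l'.Y) l'.hg)
    rw [← map_mul] at h3
    have h4 : l.z * ((p ^ a : ℕ) : Qb) ^ l.r * (l'.z * ((p ^ a : ℕ) : Qb) ^ l'.r) =
        ((p ^ a : ℕ) : Qb) ^ (w l.t + l.r + l'.r) := by
      rw [hz, pow_add, pow_add]
      field_simp
    rw [h4, map_pow, map_natCast] at h3
    exact h3
  have h5 : X ∈ W.gr (l.Y.prod l'.Y) (2 * (w l.t + l.r + l'.r)) := by
    have h6 : X ∈ W.gr (l.Y.prod l'.Y) ((w l.t + 2 * l.r) + (w l'.t + 2 * l'.r)) :=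
      W.mul_mem (W.map_mem _ l.hx) (W.map_mem _ l'.hx)
    rw [ht] at h6
    rwa [show 2 * (w l.t + l.r + l'.r) = w l.t + 2 * l.r + (w l.t + 2 * l'.r) by ring]
  exact hpair l.t l.r l'.r l.Y l.hY l'.Y (ht ▸ l'.hY) ⟨h2, h5⟩

variable {lam : Qb → ℚ} {ι : Qb →+* PadicAlgCl p}

lemma wt_eq (L : List (CL F w γ 𝒞 τ V)) : ((labs L).map fun l => w l.1).sum = wt L := by
  rw [labs, wt, List.map_map]
  rfl

/-- **Words of weight zero are generated.** -/
theorem word_alg (h𝒜 : Good 𝒜) (ha : 0 < a) (hlam : ∀ z, (lam z : ℝ) = sl (p ^ a) ι z)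
    (hw : ∀ t, IsWeil (p ^ a) (w t) (γ t))
    (hne : ∀ t, γ t ^ 2 ≠ ((p ^ a : ℕ) : Qb) ^ w t)
    (hpair : ∀ t r r', ∀ Y ∈ 𝒞 t r, ∀ Y' ∈ 𝒞 t r',
      genEig F (Y.prod Y') (w t + r + r') ≤ 𝒜 (Y.prod Y'))
    (hT : ∀ j, genEig F Z j ≤ 𝒜 Z) (f : V ⟶ Z) {i : ℕ} {β : Qb} (hβ : IsWeil (p ^ a) i β)
    (hM : SlopeIndependent lam γ (sTraces lam {β}))
    {x : W.H Z} (hx : x ∈ W.gr Z i) (hxg : x ∈ (fr F Z).maxGenEigenspace (τ β)) :
    ∀ (n : ℕ) (L : List (CL F w γ 𝒞 τ V)), L.length ≤ n →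
      (∃ j : ℕ, β * ev L * ((p ^ a : ℕ) : Qb) ^ tw L = ((p ^ a : ℕ) : Qb) ^ j ∧
        i + wt L + 2 * tw L = 2 * j) → W.map f x * word L ∈ 𝒜 V := by
  classical
  have hq : 0 < p ^ a := pow_pos (Fact.out : p.Prime).pos a
  have hq0 : ((p ^ a : ℕ) : Qb) ≠ 0 := qb_ne p a
  intro n
  induction n with
  | zero =>
    rintro L hL ⟨j, hj1, hj2⟩
    obtain rfl : L = [] := List.length_eq_zero_iff.1 (Nat.le_zero.1 hL)
    rw [ev_nil, tw, List.map_nil, List.sum_nil, pow_zero, mul_one, mul_one] at hj1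
    have hj3 : i = 2 * j := by
      have h1 : i + 0 + 2 * 0 = 2 * j := hj2
      omega
    rw [word_nil, mul_one]
    refine h𝒜.map f _ (hT j ⟨?_, ?_⟩)
    · rw [hj1, map_pow, map_natCast] at hxg
      exact hxg
    · rw [← hj3]
      exact hx
  | succ n ih =>
    rintro L hL ⟨j, hj1, hj2⟩
    rcases L with _ | ⟨l, L⟩
    · exact ih [] (Nat.zero_le _) ⟨j, hj1, hj2⟩
    · -- the relation without the twist
      have hle : tw (l :: L) ≤ j := by omega
      have hrel : β * (((labs (l :: L)).map Prod.snd)).prod =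
          ((p ^ a : ℕ) : Qb) ^ (j - tw (l :: L)) := by
        apply mul_right_cancel₀ (pow_ne_zero (tw (l :: L)) hq0)
        rw [← pow_add, Nat.sub_add_cancel hle]
        exact hj1
      have hconj : ∀ l' ∈ labs (l :: L), IsConjRoot ℚ (γ l'.1) l'.2 := by
        intro l' hl'
        obtain ⟨l'', _, rfl⟩ := List.mem_map.1 hl'
        exact l''.hz
      have hdual := pairing ha hlam hw hβ hM hconj hrel (by rw [wt_eq]; omega) (l.t, l.z) (by
        rw [labs, List.map_cons]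
        exact List.mem_cons_self)
      have hz0 : l.z ≠ 0 := ((hw l.t).conj l.hz).ne_zero hq
      have hnot : (l.t, ((p ^ a : ℕ) : Qb) ^ w l.t / l.z) ≠ l.lab := by
        intro h
        have h1 : ((p ^ a : ℕ) : Qb) ^ w l.t / l.z = l.z := congrArg Prod.snd h
        rw [div_eq_iff hz0] at h1
        apply hne l.t
        obtain ⟨σ, hσ⟩ := isConjRoot_iff_exists_algEquiv.1 l.hz
        rw [← hσ, ← map_pow, sq, ← h1, map_pow, map_natCast]
      rw [labs, List.map_cons, List.mem_cons] at hdual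
      obtain ⟨l', hl', hlab⟩ := List.mem_map.1 (hdual.resolve_left hnot)
      have ht : l'.t = l.t := congrArg Prod.fst hlab
      have hz : l'.z = ((p ^ a : ℕ) : Qb) ^ w l.t / l.z := congrArg Prod.snd hlab
      obtain ⟨L₁, L₂, hL'⟩ := List.append_of_mem hl'
      have hperm : (l :: L).Perm (l :: l' :: (L₁ ++ L₂)) := by
        rw [hL']
        exact List.Perm.cons l List.perm_middle
      obtain ⟨c, hc⟩ := word_perm hperm
      have hblock := pair_alg h𝒜 hpair hw ht hz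
      rw [hc, word_cons, word_cons, mul_smul_comm]
      refine Submodule.smul_mem _ _ ?_
      rw [← mul_assoc l.val, ← mul_assoc, ← h𝒜.comm _ _ hblock, mul_assoc]
      refine h𝒜.mul _ _ hblock _ (ih (L₁ ++ L₂) ?_ ?_)
      · rw [List.length_cons] at hL
        rw [hL', List.length_append, List.length_cons] at hL
        rw [List.length_append]
        omega
      · have h1 : ev (l :: L) = l.z * (l'.z * ev (L₁ ++ L₂)) := by
          rw [ev_perm hperm, ev_cons, ev_cons]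
        have h2 : tw (l :: L) = l.r + (l'.r + tw (L₁ ++ L₂)) := by
          rw [tw_perm hperm, tw_cons, tw_cons]
        have h3 : wt (l :: L) = w l.t + (w l.t + wt (L₁ ++ L₂)) := by
          rw [wt_perm hperm, wt_cons, wt_cons, ht]
        have hjle : w l.t + l.r + l'.r ≤ j := by omega
        refine ⟨j - (w l.t + l.r + l'.r), ?_, by omega⟩
        apply mul_right_cancel₀ (pow_ne_zero (w l.t + l.r + l'.r) hq0)
        rw [← pow_add, Nat.sub_add_cancel hjle, ← hj1, h1, h2, hz, pow_add, pow_add, pow_add,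
          pow_add]
        field_simp

end Pool.Agent.H27.K3
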